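import Pool.Agent.T6.H10.DS.MidD
import Pool.Agent.R838.CR.Inst
import Pool.Agent.R838.LD.Bigm

set_option autoImplicit false

/-!
# Derivatives of order comparable to the logarithm of the height
-/

namespace Pool.Agent.T6.H10.DS

open Complex Filter Topology MeasureTheory Set
open Pool.Agent.Y671.LD (bad FarOK Strip iter_comp coord iter_diff Loc DD PtA PtB ra_pos ra_eq BB Unt wt wt_nonneg
  cover window)
open Pool.Agent.R838.CR (UNGI)
open Pool.Agent.R838.LD.Y46 (FarOK_mono' FarOK_shift)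
open Pool.Agent.H24R2.JP (Om)
open Pool.Agent.H24R2.DZ (ra NN SB2 SCount)
open Pool.Agent.W186.SD (NG)

variable {F : ℂ → ℂ}

lemma nn_of_ng {a g η : ℝ} {F : ℂ → ℂ} (ha : 0 ≤ a) (h : NG (1 / 100) a g η F) : NN a η F := by
  refine ⟨h.diff, h.symm, fun z h1 h2 => h.far z (by linarith) h2, fun z h1 h2 => ?_⟩
  refine (h.near z (by linarith) h2).trans ?_
  apply mul_le_mul_of_nonneg_left _ (norm_nonneg _)
  apply Real.exp_le_exp.2
  linarith

theorem bigD {B K : ℝ} (hD : DD B K F) (hU : UNGI F) (hst : Strip F B) (h8 : PtB F) (ε : ℝ) (hε : 0 < ε)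
    (A : ℝ) (hA : 1 ≤ A) :
    ∃ R ε0 η T0 : ℝ, ∃ n0 : ℕ, 1 ≤ R ∧ 0 < ε0 ∧ 0 < η ∧ 2 ≤ T0 ∧ ∀ (n : ℕ) (t t' : ℝ) (s : ℂ), T0 ≤ t → n0 ≤ n →
      Om t / 400 ≤ n → (n : ℝ) ≤ A * Om t → |t - t'| ≤ 1 / 2 → FarOK F R ε0 η t' → s.im = t → ¬ irrD F ε n s := by
  have hF := hD.diff
  have hB := hD.B_ge
  obtain ⟨e, he⟩ : ∃ e : ℝ, e = min ε (1 / 2) := ⟨_, rfl⟩
  have he0 : 0 < e := by rw [he]; exact lt_min hε (by norm_num)
  have he1 : e ≤ 1 / 2 := by rw [he]; exact min_le_right _ _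
  have heε : e ≤ ε := by rw [he]; exact min_le_left _ _
  obtain ⟨ηA, nA, hηA, hnA, HA⟩ := gapd e he0 he1
  obtain ⟨ηB, nB, hηB, hnB, HB⟩ := h8
  obtain ⟨J, hJ⟩ : ∃ J : ℕ, 80 * B ≤ (2 : ℝ) ^ J := by
    obtain ⟨J, hJ⟩ := pow_unbounded_of_one_lt (80 * B) (show (1 : ℝ) < 2 by norm_num)
    exact ⟨J, hJ.le⟩
  have h2J : (1 : ℝ) ≤ 2 ^ J := one_le_pow₀ (by norm_num)
  obtain ⟨X, hX⟩ : ∃ X : ℝ, X = 2 ^ J * A := ⟨_, rfl⟩
  have hX1 : 1 ≤ X := by rw [hX]; nlinarith
  obtain ⟨η', hη'⟩ : ∃ η' : ℝ, η' = min ηA ηB := ⟨_, rfl⟩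
  have hη'0 : 0 < η' := by rw [hη']; exact lt_min hηA hηB
  obtain ⟨R1, η1, T1, hR1, hη1, hT1, HU⟩ := hU (1 / 100) (1 / 400) X (by norm_num) (by norm_num) (by norm_num)
    (by linarith) η' hη'0
  obtain ⟨Kc, hKc⟩ : ∃ Kc : ℝ, Kc = (1 + η1 / 2) / (η1 / 2) + 8 := ⟨_, rfl⟩
  have hKc0 : 0 ≤ (1 + η1 / 2) / (η1 / 2) := by positivity
  refine ⟨R1 + 1, 1 / 100 * min (1 / 400) 1 / 10, η1 / 2, max T1 (Real.exp (2 * Kc)), max (max nA nB) 800,
    by linarith, by
      have : (0 : ℝ) < min (1 / 400) 1 := lt_min (by norm_num) one_pos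
      positivity, by positivity, hT1.trans (le_max_left _ _), ?_⟩
  intro n t t' s ht hn hnt hnA2 htt hfar hsim hirr
  have ht1 : T1 ≤ t := (le_max_left _ _).trans ht
  have hte : Real.exp (2 * Kc) ≤ t := (le_max_right _ _).trans ht
  have htpos : 0 < t := lt_of_lt_of_le (Real.exp_pos _) hte
  have hlogt : 2 * Kc ≤ Real.log t := by
    rw [Real.le_log_iff_exp_le htpos]; exact hte
  have hOmd : Om t = Real.log t / 2 := rfl
  have hOmK : Kc ≤ Om t := by rw [hOmd]; linarith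
  have hOm8 : 8 ≤ Om t := by rw [hKc] at hOmK; linarith
  have hOm0 : 0 < Om t := by linarith
  have ht3 : 3 ≤ t := by
    have h1 := Real.add_one_le_exp (2 * Kc)
    have h2 : 8 ≤ Kc := by rw [hKc]; linarith
    linarith
  have hnA' : nA ≤ n := (le_max_left _ _).trans ((le_max_left _ _).trans hn)
  have hnB' : nB ≤ n := (le_max_right _ _).trans ((le_max_left _ _).trans hn)
  have hn800 : 800 ≤ n := (le_max_right _ _).trans hn
  have hn800' : (800 : ℝ) ≤ n := by exact_mod_cast hn800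
  have hn1 : 1 ≤ n := by omega
  have hn0 : (0 : ℝ) < n := by linarith
  have hη1' : η' ≤ ηA := by rw [hη']; exact min_le_left _ _
  have hη2' : η' ≤ ηB := by rw [hη']; exact min_le_right _ _
  have hfart : FarOK F R1 (1 / 100 * min (1 / 400) 1 / 10) η1 t := by
    have h := FarOK_shift hfar ht3 (by linarith) (by positivity) (by
      refine le_trans ?_ hOmK
      rw [hKc]; linarith)
    refine FarOK_mono' h le_rfl le_rfl ?_ hOm0.le
    linarith
  have hra : ∀ j : ℕ, ra t (2 ^ j * n) = 2 ^ j * (n / Om t) := by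
    intro j
    unfold ra
    rw [← hOmd]
    ring
  have hnO1 : 1 / 400 ≤ n / Om t := by
    rw [le_div_iff₀ hOm0]
    linarith
  have hnO2 : n / Om t ≤ A := by
    rw [div_le_iff₀ hOm0]
    exact hnA2
  have hNN : ∀ j : ℕ, j ≤ J → NN (2 ^ j * n) η' (fun z => F (I * t + ra t (2 ^ j * n) * z)) := by
    intro j hj
    have hpj : (1 : ℝ) ≤ 2 ^ j := one_le_pow₀ (by norm_num)
    have hpJ : (2 : ℝ) ^ j ≤ 2 ^ J := pow_le_pow_right₀ (by norm_num) hj
    have h1 : 1 / 400 ≤ ra t (2 ^ j * n) := by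
      rw [hra]
      nlinarith
    have h2 : ra t (2 ^ j * n) ≤ X := by
      rw [hra, hX]
      exact mul_le_mul hpJ hnO2 (by positivity) (by positivity)
    have h3 := HU t (ra t (2 ^ j * n)) (2 * ra t (2 ^ j * n) ^ 2) ht1 h1 h2 le_rfl hfart
    have h4 : ra t (2 ^ j * n) * Om t = 2 ^ j * n := by
      rw [hra]
      field_simp
    rw [h4] at h3
    exact nn_of_ng (by positivity) h3
  obtain ⟨r, hr⟩ : ∃ r : ℝ, r = ra t n := ⟨_, rfl⟩
  have hr' : r = n / Om t := by
    have := hra 0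
    simp only [pow_zero, one_mul] at this
    rw [hr, this]
  have hr0 : 0 < r := by rw [hr']; positivity
  have h4r : 4 * r / n ≤ r / 200 := by
    rw [div_le_div_iff₀ hn0 (by norm_num)]
    nlinarith
  have hrj : ∀ j : ℕ, r ≤ ra t (2 ^ j * n) := by
    intro j
    have hpj : (1 : ℝ) ≤ 2 ^ j := one_le_pow₀ (by norm_num)
    rw [hra, ← hr']
    nlinarith
  have hnear : ∀ z : ℂ, iteratedDeriv n F z = 0 → |z.im - s.im| ≤ r / 200 →
      z.re = 0 ∧ iteratedDeriv (n + 1) F z ≠ 0 := by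
    intro z hz hzs
    apply not_bad hz
    intro hbad
    have hLoc : Loc F ηB t n 0 J z.im := by
      intro j _ hj
      refine ⟨t, ?_, NN_mono2 (hNN j hj) hη2' (by positivity)⟩
      have h6 := hrj j
      rw [hsim] at hzs
      linarith
    have h3 := HB t n J z (by linarith) hnB' hbad hLoc
    have h4 := hst n z hz
    have h5 : B ≤ 5 * ra t (2 ^ J * n) := by
      rw [hra]
      nlinarith
    linarith
  have hNN0 : NN n η' (fun z => F (I * t + r * z)) := by
    have := hNN 0 (Nat.zero_le _)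
    simp only [pow_zero, one_mul] at this
    rw [hr]
    exact this
  have hG := HA n _ hnA' (NN_mono2 hNN0 hη1' (by positivity))
  obtain ⟨hs0, hnreg⟩ := hirr
  obtain ⟨q1, q2, g, hg0, hg4, q3, q4, q5, q6⟩ := reg_localD hF hr0 hn1 he1 hG hs0
    (by rw [hsim, sub_self, abs_zero]; positivity)
    (fun z hz hz1 hz2 => hnear z hz (by rw [abs_of_nonneg (by linarith)]; linarith))
  apply hnreg
  refine ⟨q1, q2, g, hg0, ?_, q4, q5, q6⟩
  have e1 : n * (g / r) = g * Om s.im := by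
    rw [hr', hsim]
    field_simp
  rw [e1] at q3
  exact q3.trans heε

/-- Large `n`, in dyadic windows. -/
theorem cntBig {B K : ℝ} (hD : DD B K F) (hU : UNGI F) (h5 : Unt F) (hst : Strip F B) (h8 : PtB F) (ε : ℝ)
    (hε : 0 < ε) (A : ℝ) (hA : 1 ≤ A) :
    ∃ c C T0 : ℝ, ∃ n0 : ℕ, 0 < c ∧ 0 < C ∧ 2 ≤ T0 ∧ ∀ (T : ℝ) (n : ℕ), T0 ≤ T →
      n0 ≤ n → Real.log T / 400 < n → (n : ℝ) ≤ A * Real.log T →
      ∀ S : Finset ℂ, (∀ s ∈ S, irrD F ε n s ∧ T < s.im ∧ s.im ≤ 2 * T) →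
      ∑ s ∈ S, (analyticOrderNatAt (iteratedDeriv n F) s : ℝ) ≤ C * T * Real.exp (-(c * n)) * Real.log T := by
  classical
  have hB := hD.B_ge
  obtain ⟨R, ε0, η, T1, n0, hR, hε0, hη, hT1, hbig⟩ := bigD hD hU hst h8 ε hε (2 * A) (by linarith)
  obtain ⟨c3, C3, T3, hc3, hC3, hT3, hfar⟩ := hD.top R ε0 η hR hε0 hη
  obtain ⟨C5, T5, hC5, hT5, hunit⟩ := h5 (2 * A) (by linarith)
  refine ⟨c3 / A, 6 * C5 * C3, max (max T1 T3) (max (2 * T5) (Real.exp 1000)), n0, by positivity, by positivity,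
    hT1.trans ((le_max_left _ _).trans (le_max_left _ _)), ?_⟩
  intro T n hT hn hnL hnA S hS
  have hTT1 : T1 ≤ T := ((le_max_left _ _).trans (le_max_left _ _)).trans hT
  have hTT3 : T3 ≤ T := ((le_max_right _ _).trans (le_max_left _ _)).trans hT
  have hTT5 : 2 * T5 ≤ T := ((le_max_left _ _).trans (le_max_right _ _)).trans hT
  have hTe : Real.exp 1000 ≤ T := ((le_max_right _ _).trans (le_max_right _ _)).trans hT
  have hT1000 : 1000 ≤ T := by
    have := Real.add_one_le_exp (1000 : ℝ)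
    linarith
  have hT0 : 0 < T := by linarith
  obtain ⟨L, hL⟩ : ∃ L : ℝ, L = Real.log T := ⟨_, rfl⟩
  have hL1000 : 1000 ≤ L := by
    rw [hL, Real.le_log_iff_exp_le hT0]; exact hTe
  rw [← hL] at hnL hnA ⊢
  have hL0 : 0 < L := by linarith
  have hlog2 : Real.log 2 ≤ 1 := by
    have := Real.log_le_sub_one_of_pos (show (0 : ℝ) < 2 by norm_num)
    linarith
  have hlog3 : Real.log (3 * T) ≤ 2 * L := by
    rw [Real.log_mul (by norm_num) hT0.ne', ← hL]
    have : Real.log 3 ≤ 2 := by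
      have := Real.log_le_sub_one_of_pos (show (0 : ℝ) < 3 by norm_num)
      linarith
    linarith
  have hhalf : ∀ x : ℝ, T / 2 ≤ x → L - 1 ≤ Real.log x := by
    intro x hx
    have h10 : Real.log (T / 2) ≤ Real.log x := Real.log_le_log (by positivity) hx
    have h11 : Real.log (T / 2) = L - Real.log 2 := by
      rw [Real.log_div hT0.ne' (by norm_num), ← hL]
    linarith
  have hloghalf : ∀ x : ℝ, T / 2 ≤ x → (n : ℝ) ≤ 2 * A * Real.log x := by
    intro x hx
    have := hhalf x hx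
    nlinarith
  have h10 := cover (wt F n) (wt_nonneg F n) (fun s => s.im) (1 / 2) (6 * C5 * L)
      (by norm_num) (by positivity) S
      _ (C3 * T ^ (1 - c3)) (by positivity)
      (by
        intro s hs
        obtain ⟨hirr, hs1, hs2⟩ := hS s hs
        have hls1 : L ≤ Real.log s.im := by rw [hL]; exact Real.log_le_log hT0 hs1.le
        have hls2 : Real.log s.im ≤ Real.log 2 + L := by
          rw [hL, ← Real.log_mul (by norm_num) hT0.ne']
          exact Real.log_le_log (by linarith) hs2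
        have hOms : Om s.im = Real.log s.im / 2 := rfl
        intro x hx
        refine ⟨by linarith [hx.1], by linarith [hx.2], fun hok => ?_⟩
        refine hbig n s.im x s (by linarith) hn (by rw [hOms]; linarith) (by rw [hOms]; nlinarith) ?_ hok rfl hirr
        rw [abs_le]
        constructor <;> linarith [hx.1, hx.2])
      (hfar T hTT3)
      (by
        intro s0 hs0
        obtain ⟨hbad0, hs1, hs2⟩ := hS s0 hs0
        have h11 := window F (by linarith) hC5 hT5 hunit n (s0.im - 1) 2 (by linarith)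
          (hloghalf _ (by linarith)) (by positivity)
          (S.filter (fun s' => |s'.im - s0.im| ≤ 2 * (1 / 2))) (by
            intro s hs
            rw [Finset.mem_filter] at hs
            obtain ⟨hbad, hs3, hs4⟩ := hS s hs.1
            have h12 := abs_le.1 hs.2
            exact ⟨by linarith, by linarith, hbad.1⟩)
        refine h11.trans ?_
        have h12 : Real.log (s0.im - 1 + 2) ≤
            2 * L := (Real.log_le_log (by linarith) (by linarith)).trans hlog3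
        calc ((2 : ℝ) + 1) * (C5 * Real.log (s0.im - 1 + 2))
            ≤ 3 * (C5 * (2 * L)) := by
              apply mul_le_mul (by norm_num) (mul_le_mul_of_nonneg_left h12 hC5.le) _ (by positivity)
              apply mul_nonneg hC5.le (Real.log_nonneg (by linarith))
          _ = 6 * C5 * L := by ring)
  refine le_trans h10 ?_
  have hTc : T ^ (1 - c3) = T * Real.exp (-(c3 * L)) := by
    rw [Real.rpow_sub hT0, Real.rpow_one, Real.rpow_def_of_pos hT0, div_eq_mul_inv, ← Real.exp_neg, hL]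
    congr 3
    ring
  rw [hTc]
  have h14 : Real.exp (-(c3 * L)) ≤ Real.exp (-(c3 / A * n)) := by
    apply Real.exp_le_exp.2
    have h15 : c3 / A * n ≤ c3 / A * (A * L) := mul_le_mul_of_nonneg_left hnA (by positivity)
    have h16 : c3 / A * (A * L) = c3 * L := by field_simp
    linarith
  calc 6 * C5 * L * (C3 * (T * Real.exp (-(c3 * L)))) / (2 * (1 / 2))
      = 6 * C5 * C3 * T * Real.exp (-(c3 * L)) * L := by ring
    _ ≤ 6 * C5 * C3 * T * Real.exp (-(c3 / A * n)) * L := by gcongr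

end Pool.Agent.T6.H10.DS
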