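import Pool.Agent.Y423.GL.TotD

set_option autoImplicit false

/-!
# The derivatives have many zeros in dyadic windows
-/

namespace Pool.Agent.T6.H10.DS

open Complex Filter Topology Set
open Pool.Agent.Y671.GL (CG AppX)

theorem totw (κ : ℝ) (H X Z : ℂ → ℂ) (hκ2 : 1 / 2 ≤ κ) (hcg : CG κ H X Z) (happ : AppX X) (K : ℝ) (hK : 1 ≤ K) :
    ∃ c T0 : ℝ, 0 < c ∧ 2 ≤ T0 ∧ ∀ (n : ℕ) (T : ℝ), T0 ≤ T → (n : ℝ) ≤ K * Real.log T →
      ∃ S : Finset ℂ, (∀ s ∈ S, iteratedDeriv n X s = 0 ∧ T < s.im ∧ s.im ≤ 2 * T) ∧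
        c * T * Real.log T ≤ ∑ s ∈ S, (analyticOrderNatAt (iteratedDeriv n X) s : ℝ) := by
  classical
  have h := hcg.cf
  have hκ := h.κ_pos
  obtain ⟨R, T1, hR, hT1, hw⟩ := Pool.Agent.Y423.GL.window h hκ2 happ K hK
  obtain ⟨ρ, hρ⟩ : ∃ ρ : ℝ, ρ = 1600 * R := ⟨_, rfl⟩
  rw [← hρ] at hw
  have hρ0 : 0 < ρ := by rw [hρ]; positivity
  refine ⟨κ / 409600, max (2 * T1) (16 * ρ + 4), by positivity,
    le_trans (by linarith) (le_max_left _ _), ?_⟩
  intro n T hT hn
  have g1 : 2 * T1 ≤ T := (le_max_left _ _).trans hT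
  have g3 : 16 * ρ + 4 ≤ T := (le_max_right _ _).trans hT
  have g2 : 4 ≤ T := by linarith
  have hT0 : 0 < T := by linarith
  obtain ⟨m, hm⟩ : ∃ m : ℕ, m = ⌊T / (8 * ρ)⌋₊ := ⟨_, rfl⟩
  have hm1 : (m : ℝ) ≤ T / (8 * ρ) := by rw [hm]; exact Nat.floor_le (by positivity)
  have hm2 : T / (8 * ρ) < m + 1 := by rw [hm]; exact Nat.lt_floor_add_one _
  rw [le_div_iff₀ (by positivity)] at hm1
  rw [div_lt_iff₀ (by positivity)] at hm2
  obtain ⟨tk, htk⟩ : ∃ tk : ℕ → ℝ, tk = fun k : ℕ => T + 3 * ρ * ((k : ℝ) + 1) := ⟨_, rfl⟩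
  have htT : ∀ k, T ≤ tk k := by
    intro k
    rw [htk]
    have : 0 ≤ 3 * ρ * ((k : ℝ) + 1) := by positivity
    simp only
    linarith
  have hlogT : 0 ≤ Real.log T := Real.log_nonneg (by linarith)
  have hlogk : ∀ k, Real.log T ≤ Real.log (tk k) := fun k => Real.log_le_log hT0 (htT k)
  choose S hS1 hS2 using fun k : ℕ => hw (tk k) n (by linarith [htT k]) (by
    refine hn.trans ?_
    exact mul_le_mul_of_nonneg_left (hlogk k) (show (0 : ℝ) ≤ K by linarith))
  refine ⟨(Finset.range m).biUnion S, ?_, ?_⟩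
  · intro s hs'
    rw [Finset.mem_biUnion] at hs'
    obtain ⟨k, hk', hsk⟩ := hs'
    obtain ⟨a1, a2⟩ := hS1 k s hsk
    rw [Finset.mem_range] at hk'
    rw [abs_le, htk] at a2
    simp only at a2
    have hk1 : (k : ℝ) + 1 ≤ m := by exact_mod_cast hk'
    have hk0 : (0 : ℝ) ≤ k := Nat.cast_nonneg k
    refine ⟨a1, ?_, ?_⟩
    · nlinarith [a2.1]
    · have : 3 * ρ * ((k : ℝ) + 1) ≤ 3 * ρ * m := by gcongr
      linarith [a2.2]
  · rw [Finset.sum_biUnion]
    · have hterm : ∀ k ∈ Finset.range m, κ * Real.log T * R / 16 ≤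
          ∑ s ∈ S k, (analyticOrderNatAt (iteratedDeriv n X) s : ℝ) := by
        intro k _
        refine le_trans ?_ (hS2 k)
        have h1 := hlogk k
        have h2 : κ * R * Real.log T ≤ κ * R * (Real.log (tk k)) := by gcongr
        have h3 : 0 ≤ κ * R * Real.log T := by positivity
        linarith
      calc κ / 409600 * T * Real.log T = (T / (16 * ρ)) * (κ * Real.log T * R / 16) := by
            rw [hρ]
            field_simp
            ring
        _ ≤ m * (κ * Real.log T * R / 16) := by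
            have : T / (16 * ρ) ≤ m := by
              rw [div_le_iff₀ (by positivity)]
              linarith
            gcongr
        _ = ∑ k ∈ Finset.range m, κ * Real.log T * R / 16 := by
            rw [Finset.sum_const, Finset.card_range, nsmul_eq_mul]
        _ ≤ _ := Finset.sum_le_sum hterm
    · intro j _ k _ hjk
      rw [Function.onFun, Finset.disjoint_left]
      intro s hj hk'
      have a1 := abs_le.1 (hS1 j s hj).2
      have a2 := abs_le.1 (hS1 k s hk').2
      rw [htk] at a1 a2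
      simp only at a1 a2
      apply hjk
      have b1 : (j : ℝ) - k < 1 := by
        by_contra hc
        push Not at hc
        nlinarith [a1.1, a1.2, a2.1, a2.2]
      have b2 : (k : ℝ) - j < 1 := by
        by_contra hc
        push Not at hc
        nlinarith [a1.1, a1.2, a2.1, a2.2]
      have c1 : (j : ℝ) < k + 1 := by linarith
      have c2 : (k : ℝ) < j + 1 := by linarith
      have d1 : j < k + 1 := by exact_mod_cast c1
      have d2 : k < j + 1 := by exact_mod_cast c2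
      omega

end Pool.Agent.T6.H10.DS
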