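import Pool.Agent.T6.H10.DS.BigD
import Pool.Agent.T6.H10.DS.TotW
import Pool.Agent.R838.CR.Hdyp
import Pool.Agent.R838.IS.Is9
import Pool.Agent.T6.H10.SA.Lam

set_option autoImplicit false

/-!
# The spacing of the zeros of the derivatives of completed L-functions
-/

namespace Pool.Agent.T6.H10.DS

open Complex Filter Topology Set MeasureTheory
open Pool.Agent.H24R2.JP (Om)
open Pool.Agent.Y671.LD (bad FarOK Strip iter_diff DD PtA PtB Unt iter_scale order_const_mul strip_of_app unit_of pta ptb App)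
open Pool.Agent.Y671.GL
open Pool.Agent.Y693.GL (GY good_scaleY)
open Pool.Agent.R838.CR (UNGI hd_of)
open Pool.Agent.T6.H10.SA (AZ AE EA Fol Irr AZ_image AE_image)

/-- the data for the rescaled function -/
theorem dd_of (κ : ℝ) (H X Z : ℂ → ℂ) (hκ : 1 / 2 ≤ κ) (hG : GY κ H X Z) (hA : AppX X) (hL : LowX X)
    (hst0 : ∀ s : ℂ, X s = 0 → |s.re| ≤ 1 / 2) (hH : HugeX X) :
    ∃ (F : ℂ → ℂ) (K : ℝ), F = (fun z => X (z / (2 * κ : ℝ))) ∧ DD κ K F ∧ UNGI F := by
  have hκ0 : 0 < κ := by linarith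
  have hb : 0 < 2 * κ := by positivity
  have hbc : ((2 * κ : ℝ) : ℂ) ≠ 0 := by exact_mod_cast hb.ne'
  have hC := hG.cg.cf
  have hXd := hC.diff
  obtain ⟨F, hF⟩ : ∃ F : ℂ → ℂ, F = fun z => X (z / (2 * κ : ℝ)) := ⟨_, rfl⟩
  have hFd : Differentiable ℂ F := by rw [hF]; exact hXd.comp (by fun_prop)
  obtain ⟨h1, h2, h3, h4, h5, h6, h7⟩ := Pool.Agent.Y412.GL.HSZ.hsz κ H X Z hκ hG.cg F _
    (by rw [hF]; push_cast; rfl) rfl
  obtain ⟨K0, hK0, N0, hlow⟩ := hL
  have happ : App κ F := by rw [hF]; exact app_scale hb (by ring) hA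
  obtain ⟨K1, T1, hT1, h6'⟩ := h6 (10 * κ)
  have hne := iter_ne hFd (10 * κ) K1 T1 (fun t ht => h6' t ((10 * κ : ℝ) : ℂ) ht
    (by rw [Complex.norm_real, Real.norm_eq_abs, abs_of_pos (by positivity)])
    (by rw [Complex.ofReal_re]))
  have hst : Strip F κ := strip_of_app' hFd happ hne
  have hDD : DD κ (max 25 K0) F := by
    refine ⟨hκ, le_max_left _ _, hFd, ?_, happ, ⟨_, h1, h7⟩, ?_, ?_, by rw [hF]; exact good_scaleY hκ hG.good,
      by rw [hF]; exact top_scale hXd hκ hG.top⟩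
    · intro z
      rw [hF]
      exact symm_scale hC.symm z
    · intro n hn
      have h8 := hst n _ hn
      have h9 : ((10 * κ : ℂ)).re = 10 * κ := by
        simp
      rw [h9, abs_of_pos (by positivity)] at h8
      linarith
    · refine ⟨N0, ?_⟩
      intro n hn s hs hbad
      rw [hF, bad_scale hb hXd] at hbad
      refine hlow n hn _ ?_ hbad
      rw [Complex.div_ofReal_im, abs_div, abs_of_pos hb]
      have h8 : |s.im| / (2 * κ) ≤ |s.im| := div_le_self (abs_nonneg _) (by linarith)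
      have h9 : Real.exp (n / max 25 K0) ≤ Real.exp (n / K0) := by
        apply Real.exp_le_exp.2
        exact div_le_div_of_nonneg_left (by positivity) hK0 (le_max_right _ _)
      linarith
  refine ⟨F, max 25 K0, hF, hDD, ?_⟩
  obtain ⟨⟨F', hh, hHD⟩, -, -⟩ := hd_of κ H X Z hκ hG hst0 hH
  have hFF : F' = F := by
    rw [hF, ← hHD.heat0]
    funext z
    show Pool.Agent.W169.HF.heat (0 / (2 * κ) ^ 2) X (z / ((2 * κ : ℝ) : ℂ)) = X (z / ((2 * κ : ℝ) : ℂ))
    rw [zero_div, Pool.Agent.R838.IS.heat_zero]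
  rw [← hFF]
  exact Pool.Agent.R838.LD.hung κ F' _ hh hHD

/-- The irregular zeros in dyadic windows, in the normalised coordinates. -/
theorem dyF {B K : ℝ} {F : ℂ → ℂ} (hD : DD B K F) (hU : UNGI F) (ε : ℝ) (hε : 0 < ε) (A : ℝ) (hA : 1 ≤ A) :
    ∃ c C T0 : ℝ, ∃ n0 : ℕ, 0 < c ∧ 0 < C ∧ 2 ≤ T0 ∧ ∀ (T : ℝ) (n : ℕ), T0 ≤ T → n0 ≤ n → (n : ℝ) ≤ A * Real.log T →
      ∀ S : Finset ℂ, (∀ s ∈ S, irrD F ε n s ∧ T < s.im ∧ s.im ≤ 2 * T) →
      ∑ s ∈ S, (analyticOrderNatAt (iteratedDeriv n F) s : ℝ) ≤ C * T * Real.exp (-(c * n)) * Real.log T := by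
  have hB : 0 < B := by linarith [hD.B_ge]
  have sb2 := Pool.Agent.W347.SD.sb2
  have hst : Strip F B := strip_of_app hD.diff hD.app _ hD.ne
  have hunit : Unt F := unit_of hB hD.diff hD.size hst sb2
  have hPA : PtA F := pta hD.diff (Pool.Agent.W368.SD.sb3 sb2)
  have hPB : PtB F := ptb hD.diff hPA Pool.Agent.W571.SD.sb1a Pool.Agent.W571.SD.sb1b
  obtain ⟨c1, C1, T1, n1, hc1, hC1, hT1, H1⟩ := midD hD sb2 (Pool.Agent.W32.SD.scount sb2) hunit hst hPA hPB ε hε
  obtain ⟨c2, C2, T2, n2, hc2, hC2, hT2, H2⟩ := cntBig hD hU hunit hst hPB ε hε A hA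
  refine ⟨min c1 c2, C1 + C2, max T1 T2, max n1 n2, lt_min hc1 hc2, by positivity, hT1.trans (le_max_left _ _), ?_⟩
  intro T n hT hn hnA S hS
  have hT' : 2 ≤ T := hT1.trans ((le_max_left _ _).trans hT)
  have hlog : 0 ≤ Real.log T := Real.log_nonneg (by linarith)
  have hn0 : (0 : ℝ) ≤ n := Nat.cast_nonneg _
  have he1 : Real.exp (-(c1 * n)) ≤ Real.exp (-(min c1 c2 * n)) := by
    apply Real.exp_le_exp.2
    have := mul_le_mul_of_nonneg_right (min_le_left c1 c2) hn0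
    linarith
  have he2 : Real.exp (-(c2 * n)) ≤ Real.exp (-(min c1 c2 * n)) := by
    apply Real.exp_le_exp.2
    have := mul_le_mul_of_nonneg_right (min_le_right c1 c2) hn0
    linarith
  rcases le_or_gt (n : ℝ) (Real.log T / 400) with h | h
  · refine (H1 T n ((le_max_left _ _).trans hT) ((le_max_left _ _).trans hn) h S hS).trans ?_
    have : C1 ≤ C1 + C2 := by linarith
    gcongr
  · refine (H2 T n ((le_max_right _ _).trans hT) ((le_max_right _ _).trans hn) h hnA S hS).trans ?_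
    have : C2 ≤ C1 + C2 := by linarith
    gcongr

section
variable {X : ℂ → ℂ} {κ : ℝ}

lemma iter_F (hκ : 0 < κ) (hX : Differentiable ℂ X) {F : ℂ → ℂ} (hF : F = fun z => X (z / (2 * κ : ℝ))) (n : ℕ) :
    iteratedDeriv n F = fun z => ((1 / (2 * κ) : ℝ) : ℂ) ^ n * iteratedDeriv n X (z / ((2 * κ : ℝ) : ℂ)) := by
  funext z
  have e2 : F = fun z => X (((1 / (2 * κ) : ℝ) : ℂ) * z) := by
    rw [hF]
    funext z
    congr 1
    push_cast
    ring
  rw [e2, iter_scale hX]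
  congr 2
  push_cast
  ring

/-- change of the coordinates -/
lemma irr_scale (hκ : 1 / 2 ≤ κ) (hX : Differentiable ℂ X) {F : ℂ → ℂ} (hF : F = fun z => X (z / (2 * κ : ℝ)))
    {ε : ℝ} (hε : 0 < ε) (hε1 : ε ≤ 1) {n : ℕ} {s : ℂ} (hs1 : 1 < s.im) (hsi : 10 * Real.log (2 * κ) / ε ≤ Real.log s.im)
    (hs : Irr (iteratedDeriv n X) κ ε s) : irrD F (ε / 2) n (((2 * κ : ℝ) : ℂ) * s) := by
  obtain ⟨b, hb⟩ : ∃ b : ℝ, b = 2 * κ := ⟨_, rfl⟩
  have hb1 : 1 ≤ b := by rw [hb]; linarith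
  have hb0 : 0 < b := by linarith
  have hbc : (b : ℂ) ≠ 0 := by exact_mod_cast hb0.ne'
  have hit : ∀ (m : ℕ) (z : ℂ), iteratedDeriv m F ((b : ℂ) * z) = ((1 / b : ℝ) : ℂ) ^ m * iteratedDeriv m X z := by
    intro m z
    rw [iter_F (by linarith) hX hF, ← hb]
    simp only
    rw [mul_div_cancel_left₀ _ hbc]
  have hp : ∀ m : ℕ, ((1 / b : ℝ) : ℂ) ^ m ≠ 0 := by
    intro m
    apply pow_ne_zero
    norm_cast
    positivity
  rw [← hb]
  rw [← hb] at hsi
  have hlb : 0 ≤ Real.log b := Real.log_nonneg hb1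
  obtain ⟨h1, h2⟩ := hs
  refine ⟨by rw [hit, h1, mul_zero], ?_⟩
  rintro ⟨q1, q2, g, hg, q3, q4, q5, q6⟩
  have him : ((b : ℂ) * s).im = b * s.im := Complex.im_ofReal_mul _ _
  have hre : ((b : ℂ) * s).re = b * s.re := Complex.re_ofReal_mul _ _
  rw [hre] at q1
  rw [him] at q3 q6
  have hs0 : s.re = 0 := (mul_eq_zero.1 q1).resolve_left hb0.ne'
  have hd : deriv (iteratedDeriv n X) s ≠ 0 := by
    rw [← iteratedDeriv_succ]
    intro h0
    rw [hit, h0, mul_zero] at q2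
    exact q2 rfl
  have eg : (b : ℂ) * s + g * I = (b : ℂ) * (s + ((g / b : ℝ) : ℂ) * I) := by
    push_cast
    field_simp
  rw [eg] at q4 q5
  rcases h2 with h2 | h2 | h2
  · exact h2 hs0
  · exact hd h2
  · apply h2
    refine ⟨g / b, by positivity, ?_, ?_, ?_, ?_⟩
    · have hsim0 : 0 < s.im := by linarith
      have hlog0 : 0 < Real.log s.im := Real.log_pos hs1
      have hOm : Om (b * s.im) = Real.log b / 2 + Real.log s.im / 2 := by
        unfold Om
        rw [Real.log_mul hb0.ne' hsim0.ne']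
        ring
      rw [hOm] at q3
      have e1 : g / b * (κ * Real.log s.im) = g * (Real.log s.im / 2) := by
        have : κ = b / 2 := by rw [hb]; ring
        rw [this]
        field_simp
      rw [e1]
      have hpi2 := Real.pi_lt_d2
      norm_num at hpi2
      have h3 := abs_le.1 q3
      have h4 : g * (Real.log s.im / 2) ≤ 5 := by
        have h5 : 0 ≤ g * (Real.log b / 2) := by positivity
        have h6 : g * (Real.log b / 2 + Real.log s.im / 2) = g * (Real.log b / 2) + g * (Real.log s.im / 2) := by ring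
        linarith [h3.2]
      have h7 : g * (Real.log b / 2) ≤ ε / 2 := by
        have h8 : 10 * Real.log b ≤ Real.log s.im * ε := by
          rwa [div_le_iff₀ hε] at hsi
        have h9 : g * (10 * Real.log b) ≤ g * (Real.log s.im * ε) := mul_le_mul_of_nonneg_left h8 hg.le
        have h10 : g * (Real.log s.im / 2) * ε ≤ 5 * ε := mul_le_mul_of_nonneg_right h4 hε.le
        nlinarith
      have h8 : 0 ≤ g * (Real.log b / 2) := by positivity
      rw [abs_le]
      have h6 : g * (Real.log b / 2 + Real.log s.im / 2) = g * (Real.log b / 2) + g * (Real.log s.im / 2) := by ring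
      constructor
      · linarith [h3.1]
      · linarith [h3.2]
    · rw [hit] at q4
      exact (mul_eq_zero.1 q4).resolve_left (hp n)
    · rw [← iteratedDeriv_succ]
      intro h0
      rw [hit, h0, mul_zero] at q5
      exact q5 rfl
    · intro z hz hz1 hz2
      have h3 := q6 ((b : ℂ) * z) (by rw [hit, hz, mul_zero]) (by
        rw [Complex.im_ofReal_mul]
        gcongr) (by
        rw [Complex.im_ofReal_mul]
        have h4 := mul_le_mul_of_nonneg_left hz2 hb0.le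
        have h5 : b * (s.im + g / b) = b * s.im + g := by field_simp
        linarith)
      rcases h3 with h3 | h3
      · left
        exact mul_left_cancel₀ hbc h3
      · right
        rw [eg] at h3
        exact mul_left_cancel₀ hbc h3

/-- The irregular zeros in dyadic windows. -/
theorem dyX (H Z : ℂ → ℂ) (hκ : 1 / 2 ≤ κ) (hG : GY κ H X Z) (hA : AppX X) (hL : LowX X)
    (hst0 : ∀ s : ℂ, X s = 0 → |s.re| ≤ 1 / 2) (hH : HugeX X) (ε : ℝ) (hε : 0 < ε) (hε1 : ε ≤ 1) (A : ℝ) (hA1 : 1 ≤ A) :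
    ∃ c C T0 : ℝ, ∃ n0 : ℕ, 0 < c ∧ 0 < C ∧ 2 ≤ T0 ∧ ∀ (T : ℝ) (n : ℕ), T0 ≤ T → n0 ≤ n → (n : ℝ) ≤ A * Real.log T →
      ∀ S : Finset ℂ, (∀ s ∈ S, s ∈ AE (iteratedDeriv n X) κ ε T) →
      ∑ s ∈ S, (analyticOrderNatAt (iteratedDeriv n X) s : ℝ) ≤ C * T * Real.exp (-(c * n)) * Real.log T := by
  obtain ⟨F, K, hF, hDD, hU⟩ := dd_of κ H X Z hκ hG hA hL hst0 hH
  have hXd := hG.cg.cf.diff
  have hb : 0 < 2 * κ := by linarith
  have hb1 : 1 ≤ 2 * κ := by linarith
  have hbc : ((2 * κ : ℝ) : ℂ) ≠ 0 := by exact_mod_cast hb.ne'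
  have hlog0 : 0 ≤ Real.log (2 * κ) := Real.log_nonneg hb1
  obtain ⟨c, C, T0, n0, hc, hC, hT0, H1⟩ := dyF hDD hU (ε / 2) (by positivity) A hA1
  refine ⟨c, C * (2 * κ) * (1 + 2 * Real.log (2 * κ)), max T0 (Real.exp (10 * Real.log (2 * κ) / ε)), n0, hc,
    by positivity, hT0.trans (le_max_left _ _), ?_⟩
  intro T n hT hn hnA S hS
  classical
  have hTT0 : T0 ≤ T := (le_max_left _ _).trans hT
  have hT2 : 2 ≤ T := hT0.trans hTT0
  have hTe : 10 * Real.log (2 * κ) / ε ≤ Real.log T := by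
    rw [Real.le_log_iff_exp_le (by linarith)]
    exact (le_max_right _ _).trans hT
  have hbT : T ≤ 2 * κ * T := by nlinarith
  have h8 := H1 (2 * κ * T) n (by linarith) hn (hnA.trans (by
      have := Real.log_le_log (by linarith) hbT
      exact mul_le_mul_of_nonneg_left this (by linarith)))
    (S.image (fun s => ((2 * κ : ℝ) : ℂ) * s)) (by
    intro s hs
    rw [Finset.mem_image] at hs
    obtain ⟨w, hw, rfl⟩ := hs
    obtain ⟨k1, k2, k3⟩ := hS w hw
    refine ⟨irr_scale hκ hXd hF hε hε1 (by linarith) ?_ k1, ?_, ?_⟩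
    · exact hTe.trans (Real.log_le_log (by linarith) k2.le)
    · rw [Complex.im_ofReal_mul]
      gcongr
    · rw [Complex.im_ofReal_mul]
      have := mul_le_mul_of_nonneg_left k3 hb.le
      linarith)
  rw [Finset.sum_image (by
    intro x _ y _ hxy
    exact mul_left_cancel₀ hbc hxy)] at h8
  have h9 : ∀ s ∈ S, (analyticOrderNatAt (iteratedDeriv n X) s : ℝ) =
      (analyticOrderNatAt (iteratedDeriv n F) (((2 * κ : ℝ) : ℂ) * s) : ℝ) := by
    intro s _
    rw [iter_F (by linarith) hXd hF, order_const_mul, order_scale hb (iter_diff hXd n)]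
    · apply pow_ne_zero
      norm_cast
      positivity
    · have : Differentiable ℂ (fun z => iteratedDeriv n X (z / ((2 * κ : ℝ) : ℂ))) :=
        (iter_diff hXd n).comp (by fun_prop)
      exact this.analyticAt _
  rw [Finset.sum_congr rfl h9]
  refine h8.trans ?_
  have hlT : 1 / 2 ≤ Real.log T := by
    have h3 : Real.log 2 ≤ Real.log T := Real.log_le_log (by norm_num) hT2
    have := Real.log_two_gt_d9
    linarith
  have h10 : Real.log (2 * κ * T) ≤ (1 + 2 * Real.log (2 * κ)) * Real.log T := by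
    rw [Real.log_mul hb.ne' (by linarith)]
    nlinarith
  calc C * (2 * κ * T) * Real.exp (-(c * n)) * Real.log (2 * κ * T)
      ≤ C * (2 * κ * T) * Real.exp (-(c * n)) * ((1 + 2 * Real.log (2 * κ)) * Real.log T) := by gcongr
    _ = _ := by ring

lemma AZD_fin {H Z : ℂ → ℂ} (hκ : 1 / 2 ≤ κ) (hC : CG κ H X Z) (hA : AppX X) (n : ℕ) (T : ℝ) :
    (AZ (iteratedDeriv n X) T).Finite := by
  obtain ⟨hne, hst⟩ := stripD hκ hC hA
  have hne1 : iteratedDeriv n X 1 ≠ 0 := by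
    intro h0
    have := hst n 1 h0
    norm_num at this
  have hK : IsCompact (Icc (-(1 / 2 : ℝ)) (1 / 2) ×ℂ Icc T (2 * T)) := isCompact_Icc.reProdIm isCompact_Icc
  refine (Pool.Agent.W605.SD.fin_zeros (iter_diff hC.cf.diff n) hne1 hK).subset ?_
  rintro s ⟨h1, h2, h3⟩
  refine ⟨?_, h1⟩
  rw [mem_reProdIm]
  have := abs_le.1 (hst n _ h1)
  exact ⟨⟨this.1, this.2⟩, h2.le, h3⟩

lemma AE_monoD {Y : ℂ → ℂ} {ε ε' T : ℝ} (h : ε' ≤ ε) : AE Y κ ε T ⊆ AE Y κ ε' T :=
  Pool.Agent.T6.H10.SA.AE_mono h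

/-- **The proportion of the irregular zeros.** -/
theorem prX (H Z : ℂ → ℂ) (hκ : 1 / 2 ≤ κ) (hG : GY κ H X Z) (hA : AppX X) (hL : LowX X)
    (hst0 : ∀ s : ℂ, X s = 0 → |s.re| ≤ 1 / 2) (hH : HugeX X) (ε : ℝ) (hε : 0 < ε) (A : ℝ) :
    ∃ c C : ℝ, 0 < c ∧ 0 < C ∧ ∀ (n : ℕ) (T : ℝ), 2 ≤ T → (n : ℝ) ≤ A * Real.log T →
      (nu (iteratedDeriv n X) (AE (iteratedDeriv n X) κ ε T) : ℝ) ≤
        C * Real.exp (-(c * n)) * nu (iteratedDeriv n X) (AZ (iteratedDeriv n X) T) := by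
  obtain ⟨c, C, T1, n0, hc, hC, hT1, H1⟩ := dyX H Z hκ hG hA hL hst0 hH (min ε 1) (lt_min hε one_pos)
    (min_le_right _ _) (max A 1) (le_max_right _ _)
  obtain ⟨c2, T2, hc2, hT2, H2⟩ := totw κ H X Z hκ hG.cg hA (max A 1) (le_max_right _ _)
  obtain ⟨M, hM⟩ : ∃ M : ℝ, M = (n0 : ℝ) + max A 1 * Real.log (max T1 T2) := ⟨_, rfl⟩
  have hT12 : 2 ≤ max T1 T2 := hT1.trans (le_max_left _ _)
  have hl12 : 0 ≤ Real.log (max T1 T2) := Real.log_nonneg (by linarith)
  have hA1 : 1 ≤ max A 1 := le_max_right _ _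
  refine ⟨c, C / c2 + Real.exp (c * M), hc, by positivity, ?_⟩
  intro n T hT hnA
  have hfin := AZD_fin hκ hG.cg hA n T
  have hsub : AE (iteratedDeriv n X) κ ε T ⊆ AZ (iteratedDeriv n X) T := fun s hs => ⟨hs.1.1, hs.2⟩
  have hZ0 : (0 : ℝ) ≤ nu (iteratedDeriv n X) (AZ (iteratedDeriv n X) T) := Nat.cast_nonneg _
  have hE := Real.exp_pos (-(c * n))
  have hl0 : 0 < Real.log T := Real.log_pos (by linarith)
  have hnA' : (n : ℝ) ≤ max A 1 * Real.log T :=
    hnA.trans (mul_le_mul_of_nonneg_right (le_max_left _ _) hl0.le)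
  have htriv : (n : ℝ) ≤ M → (nu (iteratedDeriv n X) (AE (iteratedDeriv n X) κ ε T) : ℝ) ≤
        (C / c2 + Real.exp (c * M)) * Real.exp (-(c * n)) *
          nu (iteratedDeriv n X) (AZ (iteratedDeriv n X) T) := by
    intro hle
    have h4 : 1 ≤ Real.exp (c * M) * Real.exp (-(c * n)) := by
      rw [← Real.exp_add]
      apply Real.one_le_exp
      nlinarith
    calc (nu (iteratedDeriv n X) (AE (iteratedDeriv n X) κ ε T) : ℝ) ≤
          nu (iteratedDeriv n X) (AZ (iteratedDeriv n X) T) := nu_mono hfin hsub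
      _ = 1 * nu (iteratedDeriv n X) (AZ (iteratedDeriv n X) T) := by ring
      _ ≤ (Real.exp (c * M) * Real.exp (-(c * n))) * nu (iteratedDeriv n X) (AZ (iteratedDeriv n X) T) := by
          gcongr
      _ ≤ _ := by
          have : 0 ≤ C / c2 * Real.exp (-(c * n)) * nu (iteratedDeriv n X) (AZ (iteratedDeriv n X) T) := by
            positivity
          linarith
  rcases lt_or_ge T (max T1 T2) with hT3 | hT3
  · apply htriv
    have h5 : Real.log T ≤ Real.log (max T1 T2) := Real.log_le_log (by linarith) hT3.le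
    have h6 : max A 1 * Real.log T ≤ max A 1 * Real.log (max T1 T2) := by gcongr
    have h7 : (0 : ℝ) ≤ n0 := Nat.cast_nonneg _
    rw [hM]
    linarith
  rcases lt_or_ge n n0 with hn | hn
  · apply htriv
    have h5 : (n : ℝ) ≤ n0 := by exact_mod_cast hn.le
    have h6 : 0 ≤ max A 1 * Real.log (max T1 T2) := by positivity
    rw [hM]
    linarith
  have hE1 : (nu (iteratedDeriv n X) (AE (iteratedDeriv n X) κ ε T) : ℝ) ≤ C * T * Real.exp (-(c * n)) * Real.log T := by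
    refine (nu_mono (hfin.subset fun s hs => ⟨hs.1.1, hs.2⟩) (AE_monoD (min_le_left ε 1))).trans ?_
    exact nu_le (hfin.subset fun s hs => ⟨hs.1.1, hs.2⟩) fun S hS =>
      H1 T n ((le_max_left _ _).trans hT3) hn hnA' S hS
  have hL1 : c2 * T * Real.log T ≤ nu (iteratedDeriv n X) (AZ (iteratedDeriv n X) T) := by
    obtain ⟨S, hS, h1⟩ := H2 n T ((le_max_right _ _).trans hT3) hnA'
    exact h1.trans (le_nu hfin S hS)
  have h9 : C * T * Real.exp (-(c * n)) * Real.log T ≤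
      C / c2 * Real.exp (-(c * n)) * nu (iteratedDeriv n X) (AZ (iteratedDeriv n X) T) := by
    calc C * T * Real.exp (-(c * n)) * Real.log T =
        C / c2 * Real.exp (-(c * n)) * (c2 * T * Real.log T) := by
          field_simp
      _ ≤ _ := by gcongr
  have h10 : 0 ≤ Real.exp (c * M) * Real.exp (-(c * n)) * nu (iteratedDeriv n X) (AZ (iteratedDeriv n X) T) := by
    positivity
  linarith

end

/-- **The spacing of the zeros of the derivatives**, for one completed L-function. -/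
theorem lamD {Λ : ℂ → ℂ} {v : ℂ} {a κ : ℝ} {H Z : ℂ → ℂ} (hκ : 1 / 2 ≤ κ) (hv : v ≠ 0)
    (hG : GY κ H (fun z => v * Λ ((a : ℂ) + z)) Z) (hA : AppX (fun z => v * Λ ((a : ℂ) + z)))
    (hL : LowX (fun z => v * Λ ((a : ℂ) + z)))
    (hst : ∀ s : ℂ, (fun z => v * Λ ((a : ℂ) + z)) s = 0 → |s.re| ≤ 1 / 2)
    (hH : HugeX (fun z => v * Λ ((a : ℂ) + z))) (hΛ : Differentiable ℂ Λ) :
    (∀ (n : ℕ) (T : ℝ), {s | iteratedDeriv n Λ s = 0 ∧ T < s.im ∧ s.im ≤ 2 * T}.Finite) ∧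
    ∀ ε : ℝ, 0 < ε → ∀ A : ℝ, ∃ c C : ℝ, 0 < c ∧ 0 < C ∧ ∀ (n : ℕ) (T : ℝ), 2 ≤ T → (n : ℝ) ≤ A * Real.log T →
      (nu (iteratedDeriv n Λ) (EA (iteratedDeriv n Λ) κ ε a T) : ℝ) ≤ C * Real.exp (-(c * n)) *
        nu (iteratedDeriv n Λ) {s | iteratedDeriv n Λ s = 0 ∧ T < s.im ∧ s.im ≤ 2 * T} := by
  have e0 : ∀ n : ℕ, iteratedDeriv n (fun z => v * Λ ((a : ℂ) + z)) =
      fun z => v * iteratedDeriv n Λ ((a : ℂ) + z) := fun n => funext fun z => iter_shift' v a Λ n z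
  have hfin : ∀ (n : ℕ) (T : ℝ), (AZ (fun z => v * iteratedDeriv n Λ ((a : ℂ) + z)) T).Finite := by
    intro n T
    have := AZD_fin hκ hG.cg hA n T
    rwa [e0] at this
  refine ⟨?_, ?_⟩
  · intro n T
    rw [← AZ_image (a := a) (A := iteratedDeriv n Λ) hv T]
    exact (hfin n T).image _
  · intro ε hε A
    obtain ⟨c, C, hc', hC, H1⟩ := prX H Z hκ hG hA hL hst hH ε hε A
    refine ⟨c, C, hc', hC, fun n T hT hn => ?_⟩
    have h1 := H1 n T hT hn
    rw [e0] at h1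
    have hd := iter_diff hΛ n
    rw [nu_shift hd hv a (hfin n T), nu_shift hd hv a ((hfin n T).subset fun s hs => ⟨hs.1.1, hs.2⟩),
      AZ_image hv, AE_image hv] at h1
    exact h1

end Pool.Agent.T6.H10.DS
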