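import Pool.Agent.R838.CR.Real1

set_option autoImplicit false

/-!
# A curve which rotates with almost constant speed: the next zero of its imaginary part
-/

namespace Pool.Agent.T6.H10.DS

open Complex Filter Topology MeasureTheory Set

lemma rot {B ρ : ℝ → ℂ} {a δ : ℝ} (ha : 0 < a) (hδ : 0 ≤ δ) (hδ1 : δ ≤ 1 / 40) (h0 : B 0 = 1)
    (hder : ∀ h : ℝ, 0 ≤ h → a * h ≤ 4 → HasDerivAt B ((a : ℂ) * (I * (ρ h * B h))) h)
    (hρ : ∀ h : ℝ, 0 ≤ h → a * h ≤ 4 → ‖ρ h - 1‖ ≤ δ) :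
    ∀ h : ℝ, 0 ≤ h → a * h ≤ 4 → ‖B h - cexp (I * (a * h))‖ ≤ 5 * δ := by
  intro h hh0 hh4
  have hah : ∀ x ∈ Icc (0 : ℝ) h, a * x ≤ 4 := fun x hx =>
    (mul_le_mul_of_nonneg_left hx.2 ha.le).trans hh4
  obtain ⟨E, hE⟩ : ∃ E : ℝ → ℂ, E = fun x => B x * cexp (-(I * (a * x))) := ⟨_, rfl⟩
  have hEd : ∀ x ∈ Icc (0 : ℝ) h, HasDerivAt E ((a : ℂ) * (I * ((ρ x - 1) * E x))) x := by
    intro x hx
    have h1 := hder x hx.1 (hah x hx)
    have h2 : HasDerivAt (fun x : ℝ => -(I * ((a : ℂ) * (x : ℂ)))) (-(I * (a * 1))) x :=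
      (((Complex.ofRealCLM.hasDerivAt (x := x)).const_mul (a : ℂ)).const_mul I).neg
    have h3 := h1.mul h2.cexp
    rw [hE]
    refine h3.congr_deriv ?_
    simp only
    ring
  have hE0 : E 0 = 1 := by rw [hE]; simp [h0]
  have hn : ∀ x ∈ Icc (0 : ℝ) h, ‖(a : ℂ) * (I * ((ρ x - 1) * E x))‖ ≤ a * δ * ‖E x‖ := by
    intro x hx
    rw [norm_mul, norm_mul, norm_mul, Complex.norm_I, one_mul, Complex.norm_real, Real.norm_eq_abs,
      abs_of_pos ha, mul_assoc]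
    exact mul_le_mul_of_nonneg_left (mul_le_mul_of_nonneg_right (hρ x hx.1 (hah x hx)) (norm_nonneg _)) ha.le
  have hEn : ∀ x ∈ Icc (0 : ℝ) h, ‖E x‖ ≤ Real.exp (4 * δ) := by
    intro x hx
    have h1 := norm_le_gronwallBound_of_norm_deriv_right_le (f := E)
      (f' := fun x => (a : ℂ) * (I * ((ρ x - 1) * E x))) (δ := 1) (K := a * δ) (ε := 0) (a := 0) (b := h)
      (fun x hx => (hEd x hx).continuousAt.continuousWithinAt)
      (fun x hx => (hEd x ⟨hx.1, hx.2.le⟩).hasDerivWithinAt) (by rw [hE0, norm_one])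
      (fun x hx => by rw [add_zero]; exact hn x ⟨hx.1, hx.2.le⟩) x hx
    rw [gronwallBound_ε0, sub_zero, one_mul] at h1
    refine h1.trans (Real.exp_le_exp.2 ?_)
    have := mul_le_mul_of_nonneg_right (hah x hx) hδ
    calc a * δ * x = a * x * δ := by ring
      _ ≤ 4 * δ := this
  have hexp : Real.exp (4 * δ) ≤ 5 / 4 := by
    have h1 : Real.exp (4 * δ) ≤ Real.exp (1 / 10) := Real.exp_le_exp.2 (by linarith)
    have h2 : Real.exp (1 / 10) ≤ 5 / 4 := by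
      have := Real.exp_bound_div_one_sub_of_interval (x := 1 / 10) (by norm_num) (by norm_num)
      refine this.trans (by norm_num)
    exact h1.trans h2
  have hE1 : ‖E h - 1‖ ≤ 5 * δ := by
    have h1 := norm_image_sub_le_of_norm_deriv_le_segment_01' (f := fun s : ℝ => E (h * s))
      (f' := fun s => (h : ℝ) • ((a : ℂ) * (I * ((ρ (h * s) - 1) * E (h * s))))) (C := 5 * δ) ?_ ?_
    · simpa [hE0] using h1
    · intro s hs
      have hx : h * s ∈ Icc (0 : ℝ) h :=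
        ⟨mul_nonneg hh0 hs.1, mul_le_of_le_one_right hh0 hs.2⟩
      have h2 : HasDerivAt (fun s : ℝ => h * s) h s := by
        simpa using (hasDerivAt_id s).const_mul h
      exact (HasDerivAt.scomp s (hEd _ hx) h2).hasDerivWithinAt
    · intro s hs
      have hx : h * s ∈ Icc (0 : ℝ) h :=
        ⟨mul_nonneg hh0 hs.1, mul_le_of_le_one_right hh0 hs.2.le⟩
      rw [norm_smul, Real.norm_eq_abs, abs_of_nonneg hh0]
      have h3 : ‖(a : ℂ) * (I * ((ρ (h * s) - 1) * E (h * s)))‖ ≤ a * δ * (5 / 4) :=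
        (hn _ hx).trans (mul_le_mul_of_nonneg_left ((hEn _ hx).trans hexp) (by positivity))
      calc h * ‖(a : ℂ) * (I * ((ρ (h * s) - 1) * E (h * s)))‖ ≤ h * (a * δ * (5 / 4)) :=
            mul_le_mul_of_nonneg_left h3 hh0
        _ = (a * h) * (δ * (5 / 4)) := by ring
        _ ≤ 4 * (δ * (5 / 4)) := mul_le_mul_of_nonneg_right hh4 (by positivity)
        _ = 5 * δ := by ring
  have e1 : B h - cexp (I * (a * h)) = (E h - 1) * cexp (I * (a * h)) := by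
    rw [hE]
    simp only
    rw [sub_mul, one_mul, mul_assoc, ← Complex.exp_add]
    simp
  have e2 : ‖cexp (I * ((a : ℂ) * h))‖ = 1 := by
    have : I * ((a : ℂ) * h) = ((a * h : ℝ) : ℂ) * I := by push_cast; ring
    rw [this, Complex.norm_exp_ofReal_mul_I]
  rw [e1, norm_mul, e2, mul_one]
  exact hE1

/-- The next zero. -/
lemma rot_gap {B ρ : ℝ → ℂ} {a δ ε : ℝ} (ha : 0 < a) (hε : 0 < ε) (hε1 : ε ≤ 1 / 2) (hδ : 0 ≤ δ)
    (hδε : 5 * δ ≤ ε / 8) (h0 : B 0 = 1)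
    (hder : ∀ h : ℝ, 0 ≤ h → a * h ≤ 4 → HasDerivAt B ((a : ℂ) * (I * (ρ h * B h))) h)
    (hρ : ∀ h : ℝ, 0 ≤ h → a * h ≤ 4 → ‖ρ h - 1‖ ≤ δ) :
    ∃ h : ℝ, 0 < h ∧ |a * h - Real.pi| ≤ ε ∧ (B h).im = 0 ∧ ∀ h' : ℝ, 0 < h' → h' < h → (B h').im ≠ 0 := by
  have hδ1 : δ ≤ 1 / 40 := by linarith
  have hB := rot ha hδ hδ1 h0 hder hρ
  have hre : ∀ h : ℝ, cexp (I * ((a : ℂ) * h)) = (Real.cos (a * h) : ℂ) + (Real.sin (a * h) : ℂ) * I := by
    intro h
    have : I * ((a : ℂ) * h) = ((a * h : ℝ) : ℂ) * I := by push_cast; ring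
    rw [this, Complex.exp_mul_I, Complex.ofReal_cos, Complex.ofReal_sin]
  have c1 : ∀ h : ℝ, (cexp (I * ((a : ℂ) * h))).re = Real.cos (a * h) := by
    intro h
    rw [hre, Complex.add_re, Complex.mul_I_re, Complex.ofReal_re, Complex.ofReal_im]
    ring
  have c2 : ∀ h : ℝ, (cexp (I * ((a : ℂ) * h))).im = Real.sin (a * h) := by
    intro h
    rw [hre, Complex.add_im, Complex.mul_I_im, Complex.ofReal_im, Complex.ofReal_re]
    ring
  have e2 : ∀ h : ℝ, ‖cexp (I * ((a : ℂ) * h))‖ = 1 := by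
    intro h
    have : I * ((a : ℂ) * h) = ((a * h : ℝ) : ℂ) * I := by push_cast; ring
    rw [this, Complex.norm_exp_ofReal_mul_I]
  refine Pool.Agent.R838.CR.first_zero (g := fun h => (B h).im) (k := fun h => (ρ h * B h).re) (ε1 := 5 * δ)
    ha hε hε1 hδε (by simp [h0]) ?_ ?_ ?_
  · intro h h1 h2
    have h3 := hder h h1 h2
    have h4 : HasDerivAt (fun x : ℝ => (B x).im) ((a : ℂ) * (I * (ρ h * B h))).im h :=
      Complex.imCLM.hasFDerivAt.comp_hasDerivAt h h3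
    refine h4.congr_deriv ?_
    rw [Complex.im_ofReal_mul, Complex.I_mul_im]
  · intro h h1 h2
    have h3 := hB h h1 h2
    show |(B h).im - Real.sin (a * h)| ≤ 5 * δ
    rw [← c2, ← Complex.sub_im]
    exact (Complex.abs_im_le_norm _).trans h3
  · intro h h1 h2
    have h3 := hB h h1 h2
    show |(ρ h * B h).re - Real.cos (a * h)| ≤ 3 * (5 * δ)
    rw [← c1, ← Complex.sub_re]
    refine (Complex.abs_re_le_norm _).trans ?_
    have h4 : ρ h * B h - cexp (I * (a * h)) = (ρ h - 1) * B h + (B h - cexp (I * (a * h))) := by ring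
    rw [h4]
    refine (norm_add_le _ _).trans ?_
    rw [norm_mul]
    have h5 : ‖B h‖ ≤ 1 + 5 * δ := by
      have := norm_add_le (B h - cexp (I * (a * h))) (cexp (I * (a * h)))
      rw [sub_add_cancel, e2] at this
      linarith
    have h6 : ‖ρ h - 1‖ * ‖B h‖ ≤ δ * (1 + 5 * δ) :=
      mul_le_mul (hρ h h1 h2) h5 (norm_nonneg _) hδ
    nlinarith

end Pool.Agent.T6.H10.DS
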