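import Pool.Agent.T6.H10.DS.Rt
import Pool.Agent.T6.H10.DS.Rot
import Pool.Agent.W571.SD.SB1

set_option autoImplicit false

/-!
# The next zero of the `n`-th derivative in the normalised local situation
-/

namespace Pool.Agent.T6.H10.DS

open Complex Filter Topology MeasureTheory Set
open Pool.Agent.H24R2.DZ (NN hc)
open Pool.Agent.H986R2.K4 (QQ lapQ)
open Pool.Agent.W571.SD (toQQ iter_shift)

/-- The next zero above a zero of the `n`-th derivative on the line, in the normalised local situation. -/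
def GAPD : Prop := ∀ ε : ℝ, 0 < ε → ε ≤ 1 / 2 → ∃ η : ℝ, ∃ n0 : ℕ, 0 < η ∧ 1 ≤ n0 ∧
  ∀ (n : ℕ) (F : ℂ → ℂ), n0 ≤ n → NN n η F → ∀ y : ℝ, |y| ≤ 1 / 100 → iteratedDeriv n F (y * I) = 0 →
    ∃ h : ℝ, 0 < h ∧ |n * h - Real.pi| ≤ ε ∧ iteratedDeriv n F ((y + h : ℝ) * I) = 0 ∧
      ∀ h' : ℝ, 0 < h' → h' < h → iteratedDeriv n F ((y + h' : ℝ) * I) ≠ 0

theorem gapd : GAPD := by
  intro ε hε hε1
  obtain ⟨e, he⟩ : ∃ e : ℝ, e = ε / 200 := ⟨_, rfl⟩
  have he0 : 0 < e := by rw [he]; positivity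
  have he1 : e ≤ 1 / 400 := by rw [he]; linarith
  obtain ⟨κ1, η', n1, hκ1, -, hκ1', hη', hn1, H⟩ := rtc lapQ (1 / 2) 18 (by norm_num) (by norm_num) (by norm_num) e he0
  obtain ⟨n2, hn2⟩ : ∃ n2 : ℕ, n2 = max ⌈4 / κ1⌉₊ ⌈1 / e⌉₊ := ⟨_, rfl⟩
  refine ⟨min η' (1 / 200), max n1 n2, lt_min hη' (by norm_num), hn1.trans (le_max_left _ _), ?_⟩
  intro n F hn hN y hy hz
  have hnn1 : n1 ≤ n := (le_max_left _ _).trans hn
  have hnn2 : n2 ≤ n := (le_max_right _ _).trans hn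
  have hn0 : (1 : ℝ) ≤ n := by exact_mod_cast hn1.trans hnn1
  have hnpos : (0 : ℝ) < n := by linarith
  have hnk : 4 / κ1 ≤ n := by
    have h1 : ⌈4 / κ1⌉₊ ≤ n := by
      rw [hn2] at hnn2; exact (le_max_left _ _).trans hnn2
    exact (Nat.le_ceil _).trans (by exact_mod_cast h1)
  have hne : 1 / e ≤ n := by
    have h1 : ⌈1 / e⌉₊ ≤ n := by
      rw [hn2] at hnn2; exact (le_max_right _ _).trans hnn2
    exact (Nat.le_ceil _).trans (by exact_mod_cast h1)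
  have hκn : 4 ≤ n * κ1 := by rwa [div_le_iff₀ hκ1] at hnk
  have hen : 1 ≤ n * e := by rwa [div_le_iff₀ he0] at hne
  obtain ⟨G, hG⟩ : ∃ G : ℂ → ℂ, G = fun z => F (z + (y : ℂ) * I) := ⟨_, rfl⟩
  have hQ : QQ (1 / 2) 18 n η' G := by
    rw [hG]
    exact toQQ (le_min hη'.le (by norm_num)) (min_le_right _ _) (min_le_left _ _) hN y hy
  have hH := H n G hnn1 hQ
  have hiter : ∀ z : ℂ, iteratedDeriv n G z = iteratedDeriv n F (z + (y : ℂ) * I) := by
    intro z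
    rw [hG, iter_shift]
  obtain ⟨A, hA⟩ : ∃ A : ℝ → ℂ, A = fun h : ℝ => hc G (n + 1) ((h : ℂ) * I) := ⟨_, rfl⟩
  have hnorm : ∀ h : ℝ, 0 ≤ h → n * h ≤ 4 → ‖(h : ℂ) * I‖ ≤ κ1 := by
    intro h h0 h4
    rw [norm_mul, Complex.norm_I, mul_one, Complex.norm_real, Real.norm_eq_abs, abs_of_nonneg h0]
    by_contra hcon
    push Not at hcon
    have : n * κ1 < n * h := mul_lt_mul_of_pos_left hcon hnpos
    linarith
  have hhalf : ∀ h : ℝ, 0 ≤ h → n * h ≤ 4 → iteratedDeriv n G ((h : ℂ) * I) / (n.factorial : ℂ) =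
      A h + (-1) ^ n * (starRingEnd ℂ) (A h) ∧
      HasDerivAt (fun z => hc G (n + 1) z) ((n + 1) * hc G (n + 2) ((h : ℂ) * I)) ((h : ℂ) * I) := by
    intro h h0 h4
    have h1 : ‖(h : ℂ) * I‖ < 1 := (hnorm h h0 h4).trans_lt hκ1'
    have h2 := Pool.Agent.H24R2.DZ.half G n ((h : ℂ) * I) hQ.diff hQ.symm h1
    have h3 : -((starRingEnd ℂ) ((h : ℂ) * I)) = (h : ℂ) * I := by
      rw [map_mul, Complex.conj_ofReal, Complex.conj_I]; ring
    rw [h3] at h2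
    rw [hA]
    exact h2
  have hA0 : ∀ h : ℝ, 0 ≤ h → n * h ≤ 4 → A h ≠ 0 := by
    intro h h0 h4
    rw [hA]
    exact (hH _ (hnorm h h0 h4)).1
  have hA00 : A 0 ≠ 0 := hA0 0 le_rfl (by simp)
  obtain ⟨ρ, hρ⟩ : ∃ ρ : ℝ → ℂ, ρ = fun h : ℝ => (((n : ℂ) + 1) / n) * (hc G (n + 2) ((h : ℂ) * I) /
    hc G (n + 1) ((h : ℂ) * I)) := ⟨_, rfl⟩
  have hnc : (n : ℂ) ≠ 0 := by exact_mod_cast hnpos.ne'
  have hAd : ∀ h : ℝ, 0 ≤ h → n * h ≤ 4 → HasDerivAt A ((n : ℂ) * (I * (ρ h * A h))) h := by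
    intro h h0 h4
    have h1 := (hhalf h h0 h4).2
    have h2 : HasDerivAt (fun x : ℝ => (x : ℂ) * I) (1 * I) h := (Complex.ofRealCLM.hasDerivAt (x := h)).mul_const I
    have h3 := HasDerivAt.comp h h1 h2
    have h4' : HasDerivAt A (((n : ℂ) + 1) * hc G (n + 2) ((h : ℂ) * I) * (1 * I)) h := by
      rw [hA]; exact h3
    refine h4'.congr_deriv ?_
    have h5 : hc G (n + 1) ((h : ℂ) * I) ≠ 0 := (hH _ (hnorm h h0 h4)).1
    rw [hρ, hA]
    simp only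
    field_simp
  have hρ1 : ∀ h : ℝ, 0 ≤ h → n * h ≤ 4 → ‖ρ h - 1‖ ≤ 3 * e := by
    intro h h0 h4
    have h5 := (hH _ (hnorm h h0 h4)).2
    obtain ⟨q, hq⟩ : ∃ q : ℂ, q = hc G (n + 2) ((h : ℂ) * I) / hc G (n + 1) ((h : ℂ) * I) := ⟨_, rfl⟩
    rw [← hq] at h5
    have h6 : ρ h - 1 = (q - 1) + (1 / n) * q := by
      rw [hρ]
      simp only
      rw [← hq]
      field_simp
      ring
    rw [h6]
    refine (norm_add_le _ _).trans ?_
    rw [norm_mul, norm_div, norm_one, Complex.norm_natCast]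
    have h7 : ‖q‖ ≤ 2 := by
      have := norm_add_le (q - 1) 1
      rw [sub_add_cancel, norm_one] at this
      linarith
    have h8 : 1 / (n : ℝ) ≤ e := by
      rw [div_le_iff₀ hnpos, mul_comm]
      exact hen
    have h9 : 1 / (n : ℝ) * ‖q‖ ≤ e * 2 := mul_le_mul h8 h7 (norm_nonneg _) he0.le
    linarith
  obtain ⟨B, hB⟩ : ∃ B : ℝ → ℂ, B = fun h => A h / A 0 := ⟨_, rfl⟩
  have hBA : ∀ h, A h = A 0 * B h := by
    intro h
    rw [hB]
    simp only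
    rw [mul_div_cancel₀ _ hA00]
  -- the zero
  have hz0 : iteratedDeriv n G 0 = 0 := by
    rw [hiter, zero_add]; exact hz
  have hA1 : (-1) ^ n * (starRingEnd ℂ) (A 0) = -A 0 := by
    have h1 := (hhalf 0 le_rfl (by simp)).1
    rw [Complex.ofReal_zero, zero_mul, hz0, zero_div] at h1
    linear_combination -h1
  have hval : ∀ h : ℝ, 0 ≤ h → n * h ≤ 4 → iteratedDeriv n F ((y + h : ℝ) * I) =
      (n.factorial : ℂ) * (A 0 * (2 * I * ((B h).im : ℂ))) := by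
    intro h h0 h4
    have h1 := (hhalf h h0 h4).1
    have hfac : (n.factorial : ℂ) ≠ 0 := by exact_mod_cast n.factorial_ne_zero
    rw [div_eq_iff hfac] at h1
    have h2 : iteratedDeriv n F ((y + h : ℝ) * I) = iteratedDeriv n G ((h : ℂ) * I) := by
      rw [hiter]
      congr 1
      push_cast
      ring
    have h3 : B h - (starRingEnd ℂ) (B h) = 2 * I * ((B h).im : ℂ) := by
      apply Complex.ext <;> simp
      ring
    rw [h2, h1, hBA h, map_mul, ← h3]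
    linear_combination (n.factorial : ℂ) * (starRingEnd ℂ) (B h) * hA1
  have hiff : ∀ h : ℝ, 0 ≤ h → n * h ≤ 4 → (iteratedDeriv n F ((y + h : ℝ) * I) = 0 ↔ (B h).im = 0) := by
    intro h h0 h4
    rw [hval h h0 h4]
    have hfac : (n.factorial : ℂ) ≠ 0 := by exact_mod_cast n.factorial_ne_zero
    rw [mul_eq_zero, or_iff_right hfac, mul_eq_zero, or_iff_right hA00, mul_eq_zero,
      or_iff_right (mul_ne_zero two_ne_zero Complex.I_ne_zero), Complex.ofReal_eq_zero]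
  obtain ⟨h, h0, h1, h2, h3⟩ := rot_gap (B := B) (ρ := ρ) (a := n) (δ := 3 * e) hnpos hε hε1 (by positivity)
    (by rw [he]; linarith) (by rw [hB]; simp only; rw [div_self hA00]) (by
      intro h h0 h4
      have h5 := (hAd h h0 h4).div_const (A 0)
      rw [hB]
      refine h5.congr_deriv ?_
      simp only
      push_cast
      ring) hρ1
  have hpi := Real.pi_lt_d2
  norm_num at hpi
  have hn4 : n * h ≤ 4 := by
    have := (abs_le.1 h1).2
    linarith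
  refine ⟨h, h0, h1, (hiff h h0.le hn4).2 h2, ?_⟩
  intro h' hh0 hhh hz'
  have h4 : n * h' ≤ 4 := (mul_le_mul_of_nonneg_left hhh.le hnpos.le).trans hn4
  exact h3 h' hh0 hhh ((hiff h' hh0.le h4).1 hz')

end Pool.Agent.T6.H10.DS
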