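import Pool.Agent.T6.H10.DS.PtP

set_option autoImplicit false

/-!
# The middle range of `n`: few irregular zeros
-/

namespace Pool.Agent.T6.H10.DS

open Complex Filter Topology MeasureTheory Set
open Pool.Agent.Y671.LD (bad FarOK Strip iter_comp coord iter_diff Loc DD PtA PtB ra_pos ra_eq BB Unt wt wt_nonneg
  cover window exists_J split3 geo nn_mono)
open Pool.Agent.H24R2.JP (Om)
open Pool.Agent.H24R2.DZ (ra NN SB2 SCount)

variable {F : ℂ → ℂ}

lemma int_sub_B2 {η T : ℝ} {n j : ℕ} {t δ : ℝ} (hT : 2 ≤ T) (h1 : T < t) (h2 : t ≤ 2 * T)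
    (hδ : δ = ra T (2 ^ j * n) / 200) (hδ1 : δ ≤ 1) (hG : ¬ GJ2 F η T n j t) :
    Icc (t - δ) (t + δ) ⊆ BB F η T (2 ^ j * n) := by
  intro x hx
  refine ⟨by linarith [hx.1], by linarith [hx.2], fun hN => hG ⟨x, ?_, hN⟩⟩
  rw [← hδ, abs_le]
  constructor <;> linarith [hx.1, hx.2]

/-- The middle range of `n`, in dyadic windows. -/
def SMdD (F : ℂ → ℂ) (ε : ℝ) : Prop := ∃ c C T0 : ℝ, ∃ n0 : ℕ, 0 < c ∧ 0 < C ∧ 2 ≤ T0 ∧ ∀ (T : ℝ) (n : ℕ), T0 ≤ T →
  n0 ≤ n → (n : ℝ) ≤ Real.log T / 400 → ∀ S : Finset ℂ, (∀ s ∈ S, irrD F ε n s ∧ T < s.im ∧ s.im ≤ 2 * T) →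
  ∑ s ∈ S, (analyticOrderNatAt (iteratedDeriv n F) s : ℝ) ≤ C * T * Real.exp (-(c * n)) * Real.log T

theorem midD {B K : ℝ} (hD : DD B K F) (h2 : SB2) (h4 : SCount) (h5 : Unt F)
    (hstrip : Strip F B) (h7 : PtA F) (h8 : PtB F) (ε : ℝ) (hε : 0 < ε) : SMdD F ε := by
  classical
  have hB := hD.B_ge
  have hdiff := hD.diff
  obtain ⟨ηp, Tp, np, hηp, hTp, hnp, hptp⟩ := ptp hD hstrip h8 h2 ε hε
  obtain ⟨ηN, hηN, HN⟩ := no_far hdiff hD.symm hstrip h2
  obtain ⟨η4, C4, hη4, hC4, hcount⟩ := h4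
  obtain ⟨η7, hη7, hptA⟩ := h7
  obtain ⟨η, hηd⟩ : ∃ η : ℝ, η = min (min η4 ηN) (min η7 ηp) := ⟨_, rfl⟩
  have hη : 0 < η := by rw [hηd]; exact lt_min (lt_min hη4 hηN) (lt_min hη7 hηp)
  have hηη4 : η ≤ η4 := by rw [hηd]; exact (min_le_left _ _).trans (min_le_left _ _)
  have hηηN : η ≤ ηN := by rw [hηd]; exact (min_le_left _ _).trans (min_le_right _ _)
  have hηη7 : η ≤ η7 := by rw [hηd]; exact (min_le_right _ _).trans (min_le_left _ _)
  have hηηp : η ≤ ηp := by rw [hηd]; exact (min_le_right _ _).trans (min_le_right _ _)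
  obtain ⟨c1, C1, a1, T1, hc1, hC1, ha1, hT1, hsc1⟩ := hD.good η hη
  obtain ⟨c3, C3, T3, hc3, hC3, hT3, hfar⟩ := hD.top (B + 2) (1 / 100) η (by linarith) (by norm_num) hη
  obtain ⟨C5, T5, hC5, hT5, hunit⟩ := h5 1 le_rfl
  have hq1 : Real.exp (-c1) < 1 := Real.exp_lt_one_iff.2 (by linarith)
  obtain ⟨Q, hQ⟩ : ∃ Q : ℝ, Q = 1 / (1 - Real.exp (-c1)) := ⟨_, rfl⟩
  have hQ0 : 0 < Q := by rw [hQ]; apply one_div_pos.2; linarith
  refine ⟨min c1 c3, 80000 * C5 * C1 + 100 * C4 * C1 * Q + 6 * C5 * C3,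
    max (max (max T1 Tp) T3) (max (2 * T5) (Real.exp 1000)), max np (max ⌈a1⌉₊ 1),
    lt_min hc1 hc3, by positivity, ?_, ?_⟩
  · have := Real.add_one_le_exp (1000 : ℝ)
    exact le_trans (by linarith) ((le_max_right _ _).trans (le_max_right _ _))
  intro T n hT hn hnL S hS
  -- unpack the sizes
  have hTT1 : T1 ≤ T := ((le_max_left _ _).trans ((le_max_left _ _).trans (le_max_left _ _))).trans hT
  have hTTp : Tp ≤ T := ((le_max_right _ _).trans ((le_max_left _ _).trans (le_max_left _ _))).trans hT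
  have hTT3 : T3 ≤ T := ((le_max_right _ _).trans (le_max_left _ _)).trans hT
  have hTT5 : 2 * T5 ≤ T := ((le_max_left _ _).trans (le_max_right _ _)).trans hT
  have hTe : Real.exp 1000 ≤ T := ((le_max_right _ _).trans (le_max_right _ _)).trans hT
  have hT1000 : 1000 ≤ T := by
    have := Real.add_one_le_exp (1000 : ℝ)
    linarith
  have hT0 : 0 < T := by linarith
  have hnp' : np ≤ n := (le_max_left _ _).trans hn
  have hna1 : a1 ≤ n := by
    have : ⌈a1⌉₊ ≤ n := ((le_max_left _ _).trans (le_max_right _ _)).trans hn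
    exact (Nat.le_ceil a1).trans (by exact_mod_cast this)
  have hn1 : 1 ≤ n := ((le_max_right _ _).trans (le_max_right _ _)).trans hn
  have hn1' : (1 : ℝ) ≤ n := by exact_mod_cast hn1
  obtain ⟨L, hL⟩ : ∃ L : ℝ, L = Real.log T := ⟨_, rfl⟩
  have hL1000 : 1000 ≤ L := by
    rw [hL, Real.le_log_iff_exp_le hT0]; exact hTe
  rw [← hL] at hnL ⊢
  have hL0 : 0 < L := by linarith
  have hlog3 : Real.log (3 * T) ≤ 2 * L := by
    rw [Real.log_mul (by norm_num) hT0.ne', ← hL]
    have : Real.log 3 ≤ 2 := by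
      have := Real.log_le_sub_one_of_pos (show (0 : ℝ) < 3 by norm_num)
      linarith
    linarith
  have hhalf : ∀ x : ℝ, T / 2 ≤ x → L - 1 ≤ Real.log x := by
    intro x hx
    have h10 : Real.log (T / 2) ≤ Real.log x := Real.log_le_log (by positivity) hx
    have h11 : Real.log (T / 2) = L - Real.log 2 := by
      rw [Real.log_div hT0.ne' (by norm_num), ← hL]
    have h12 : Real.log 2 ≤ 1 := by
      have := Real.log_le_sub_one_of_pos (show (0 : ℝ) < 2 by norm_num)
      linarith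
    linarith
  have hloghalf : ∀ x : ℝ, T / 2 ≤ x → (n : ℝ) ≤ 1 * Real.log x := by
    intro x hx
    have := hhalf x hx
    linarith
  obtain ⟨J, hJ1, hJ2, hJ3⟩ := exists_J hn1 hnL
  -- the radii
  have hr : ∀ j : ℕ, ra T (2 ^ j * n) = 2 * (2 ^ j * n) / L := fun j => by rw [hL]; exact ra_eq _ _
  have hrpos : ∀ j : ℕ, 0 < ra T (2 ^ j * n) := by
    intro j; rw [hr]; positivity
  have hrJ1 : ra T (2 ^ J * n) ≤ 1 / 100 := by
    rw [hr, div_le_iff₀ hL0]; linarith
  have hrJ2 : 1 / 200 < ra T (2 ^ J * n) := by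
    rw [hr, lt_div_iff₀ hL0]; linarith
  have hpow : ∀ j : ℕ, j ≤ J → (2 : ℝ) ^ j * n ≤ L / 200 := by
    intro j hj
    refine le_trans ?_ hJ2
    apply mul_le_mul_of_nonneg_right _ (by positivity)
    exact pow_le_pow_right₀ (by norm_num) hj
  have hpow1 : ∀ j : ℕ, (n : ℝ) ≤ 2 ^ j * n := by
    intro j
    exact le_mul_of_one_le_left (by positivity) (one_le_pow₀ (by norm_num))
  have hrj : ∀ j : ℕ, j ≤ J → ra T (2 ^ j * n) ≤ 1 / 100 := by
    intro j hj
    rw [hr, div_le_iff₀ hL0]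
    have := hpow j hj
    linarith
  -- bad heights
  have hBvol : ∀ j : ℕ, j ≤ J → volume (BB F η T (2 ^ j * n)) ≤
      ENNReal.ofReal (C1 * T * Real.exp (-(c1 * (2 ^ j * n)))) := by
    intro j hj
    exact hsc1 T (2 ^ j * n) hTT1 (hna1.trans (hpow1 j)) (by rw [← hL]; exact hpow j hj)
  -- covering of `S`
  have hcov : ∀ s ∈ S, ¬ GJ2 F η T n J s.im ∨ ¬ Top2 F (B + 2) (1 / 100) η s.im ∨
      ∃ i < J, ¬ GJ2 F η T n i s.im ∧ GJ2 F η T n (i + 1) s.im ∧ |s.re| ≤ 5 * ra T (2 ^ (i + 1) * n) := by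
    intro s hs
    obtain ⟨hirr, hs1, hs2⟩ := hS s hs
    by_cases hc : GJ2 F η T n J s.im
    swap
    · exact Or.inl hc
    by_cases hf : Top2 F (B + 2) (1 / 100) η s.im
    swap
    · exact Or.inr (Or.inl hf)
    right; right
    have hmono : ∀ (η' : ℝ) (j : ℕ), η ≤ η' → GJ2 F η T n j s.im → GJ2 F η' T n j s.im := by
      intro η' j hη' h
      obtain ⟨t', ht1, ht2⟩ := h
      exact ⟨t', ht1, nn_mono (by positivity) hη' ht2⟩
    by_cases hall : ∀ j, j ≤ J → GJ2 F η T n j s.im
    · exfalso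
      obtain ⟨t', ht1, ht2⟩ := hf
      have ht1' := abs_le.1 ht1
      have hOm' : 0 ≤ Om t' := by
        unfold Om
        have := hhalf t' (by linarith)
        linarith
      exact hptp T n J s hTTp hnp' (by rw [← hL]; exact hnL) (by rw [← hL]; exact hJ3) hs1 hs2
        (fun j hj => hmono ηp j hηηp (hall j hj))
        ⟨t', ht1, FarOK_mono2 ht2 le_rfl le_rfl hηηp hOm'⟩ hirr
    · push Not at hall
      obtain ⟨j1, hj1, hj1'⟩ := hall
      obtain ⟨i, hi⟩ : ∃ i : ℕ, i = Nat.findGreatest (fun j => ¬ GJ2 F η T n j s.im) J := ⟨_, rfl⟩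
      have hi1 : ¬ GJ2 F η T n i s.im := by
        rw [hi]
        exact Nat.findGreatest_spec (P := fun j => ¬ GJ2 F η T n j s.im) hj1 hj1'
      have hi2 : i ≤ J := by rw [hi]; exact Nat.findGreatest_le J
      have hi3 : i < J := by
        rcases hi2.lt_or_eq with h | h
        · exact h
        · rw [h] at hi1; exact absurd hc hi1
      have hi4 : ∀ j, i + 1 ≤ j → j ≤ J → GJ2 F η T n j s.im := by
        intro j hj1 hj2
        by_contra hcon
        have := Nat.le_findGreatest (P := fun j => ¬ GJ2 F η T n j s.im) hj2 hcon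
        rw [← hi] at this
        omega
      refine ⟨i, hi3, hi1, hi4 (i + 1) le_rfl hi3, ?_⟩
      have h10 := hptA T n J (i + 1) s (by linarith) hn1 hi3 hirr.1 (by
        intro j hj1 hj2
        obtain ⟨t', ht1, ht2⟩ := hmono η7 j hηη7 (hi4 j hj1 hj2)
        refine ⟨t', ht1.trans ?_, ht2⟩
        have := hrpos j
        linarith)
      refine h10.resolve_right fun h11 => ?_
      obtain ⟨t', ht1, ht2⟩ := hf
      have ht1' := abs_le.1 ht1
      have hOm' := hhalf t' (by linarith)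
      have hOm'' : Om t' = Real.log t' / 2 := rfl
      have h12 := HN t' (1 / 100) n s hn1 (by norm_num) (by norm_num) (by rw [hOm'']; linarith)
        (by rw [hOm'']; linarith) (FarOK_mono2 ht2 le_rfl le_rfl hηηN (by rw [hOm'']; linarith)) hirr.1
        (by linarith)
      linarith
  have hsplit := split3 (wt F n) (wt_nonneg F n) S (fun s => ¬ GJ2 F η T n J s.im)
    (fun s => ¬ Top2 F (B + 2) (1 / 100) η s.im)
    (fun i s => ¬ GJ2 F η T n i s.im ∧ GJ2 F η T n (i + 1) s.im ∧ |s.re| ≤ 5 * ra T (2 ^ (i + 1) * n))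
    J hcov
  -- the class (c)
  have hbc : ∑ s ∈ S.filter (fun s => ¬ GJ2 F η T n J s.im), wt F n s ≤
      80000 * C5 * C1 * T * Real.exp (-(c1 * n)) * L := by
    have hδ0 : 0 < ra T (2 ^ J * n) / 200 := by have := hrpos J; positivity
    have h10 := cover (wt F n) (wt_nonneg F n) (fun s => s.im) (ra T (2 ^ J * n) / 200) (4 * C5 * L)
      hδ0 (by positivity) (S.filter (fun s => ¬ GJ2 F η T n J s.im))
      (BB F η T (2 ^ J * n)) (C1 * T * Real.exp (-(c1 * (2 ^ J * n)))) (by positivity)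
      (by
        intro s hs
        rw [Finset.mem_filter] at hs
        obtain ⟨hbad, hs1, hs2⟩ := hS s hs.1
        exact int_sub_B2 (by linarith) hs1 hs2 rfl (by linarith) hs.2)
      (hBvol J le_rfl)
      (by
        intro s0 hs0
        obtain ⟨hbad0, hs1, hs2⟩ := hS s0 ((Finset.filter_subset _ _) hs0)
        have h11 := window F zero_le_one hC5 hT5 hunit n (s0.im - 2 * (ra T (2 ^ J * n) / 200))
          (4 * (ra T (2 ^ J * n) / 200)) (by linarith) (hloghalf _ (by linarith)) (by positivity)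
          ((S.filter (fun s => ¬ GJ2 F η T n J s.im)).filter
            (fun s' => |s'.im - s0.im| ≤ 2 * (ra T (2 ^ J * n) / 200))) (by
            intro s hs
            rw [Finset.mem_filter] at hs
            obtain ⟨hbad, hs3, hs4⟩ := hS s ((Finset.filter_subset _ _) hs.1)
            have := abs_le.1 hs.2
            exact ⟨by linarith, by linarith, hbad.1⟩)
        refine h11.trans ?_
        have h12 : Real.log (s0.im - 2 * (ra T (2 ^ J * n) / 200) + 4 * (ra T (2 ^ J * n) / 200)) ≤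
            2 * L := (Real.log_le_log (by linarith) (by linarith)).trans hlog3
        have h13 : 4 * (ra T (2 ^ J * n) / 200) + 1 ≤ 2 := by linarith
        calc (4 * (ra T (2 ^ J * n) / 200) + 1) *
              (C5 * Real.log (s0.im - 2 * (ra T (2 ^ J * n) / 200) + 4 * (ra T (2 ^ J * n) / 200)))
            ≤ 2 * (C5 * (2 * L)) := by
              apply mul_le_mul h13 (mul_le_mul_of_nonneg_left h12 hC5.le) _ (by norm_num)
              apply mul_nonneg hC5.le (Real.log_nonneg (by linarith))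
          _ = 4 * C5 * L := by ring)
    refine h10.trans ?_
    rw [div_le_iff₀ (by positivity)]
    have h14 : Real.exp (-(c1 * (2 ^ J * n))) ≤ Real.exp (-(c1 * n)) := by
      apply Real.exp_le_exp.2
      have := mul_le_mul_of_nonneg_left (hpow1 J) hc1.le
      linarith
    have h15 : (1 : ℝ) / 20000 ≤ 2 * (ra T (2 ^ J * n) / 200) := by linarith
    have h16 : 0 ≤ 80000 * C5 * C1 * T * Real.exp (-(c1 * n)) * L := by positivity
    calc 4 * C5 * L * (C1 * T * Real.exp (-(c1 * (2 ^ J * n))))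
        ≤ 4 * C5 * L * (C1 * T * Real.exp (-(c1 * n))) := by gcongr
      _ = 80000 * C5 * C1 * T * Real.exp (-(c1 * n)) * L * (1 / 20000) := by ring
      _ ≤ _ := mul_le_mul_of_nonneg_left h15 h16
  -- the classes (b)
  have hbi : ∀ i ∈ Finset.range J, ∑ s ∈ S.filter (fun s => ¬ GJ2 F η T n i s.im ∧
      GJ2 F η T n (i + 1) s.im ∧ |s.re| ≤ 5 * ra T (2 ^ (i + 1) * n)), wt F n s ≤
      100 * C4 * C1 * T * L * Real.exp (-(c1 * (2 ^ i * n))) := by
    intro i hi
    rw [Finset.mem_range] at hi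
    have hri := hrpos i
    have hri1 := hrpos (i + 1)
    have hdouble : ra T (2 ^ (i + 1) * n) = 2 * ra T (2 ^ i * n) := by
      rw [hr, hr, pow_succ]; ring
    have hδ0 : 0 < ra T (2 ^ i * n) / 200 := by positivity
    have h10 := cover (wt F n) (wt_nonneg F n) (fun s => s.im) (ra T (2 ^ i * n) / 200)
      (C4 * (2 ^ (i + 1) * n)) hδ0 (by positivity)
      (S.filter (fun s => ¬ GJ2 F η T n i s.im ∧
        GJ2 F η T n (i + 1) s.im ∧ |s.re| ≤ 5 * ra T (2 ^ (i + 1) * n)))
      (BB F η T (2 ^ i * n)) (C1 * T * Real.exp (-(c1 * (2 ^ i * n)))) (by positivity)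
      (by
        intro s hs
        rw [Finset.mem_filter] at hs
        obtain ⟨hbad, hs1, hs2⟩ := hS s hs.1
        exact int_sub_B2 (by linarith) hs1 hs2 rfl (by linarith [hrj i hi.le]) hs.2.1)
      (hBvol i hi.le)
      (by
        intro s0 hs0
        rw [Finset.mem_filter] at hs0
        obtain ⟨hs0S, -, ⟨t', ht1, ht2⟩, -⟩ := hs0
        have h11 := hcount (2 ^ (i + 1) * n) (ra T (2 ^ (i + 1) * n)) t' n F
          (hn1'.trans (hpow1 _)) (hpow1 _) hri1 hdiff (nn_mono (by positivity) hηη4 ht2)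
          ((S.filter (fun s => ¬ GJ2 F η T n i s.im ∧
            GJ2 F η T n (i + 1) s.im ∧ |s.re| ≤ 5 * ra T (2 ^ (i + 1) * n))).filter
            (fun s' => |s'.im - s0.im| ≤ 2 * (ra T (2 ^ i * n) / 200))) (by
            intro s hs
            rw [Finset.mem_filter, Finset.mem_filter] at hs
            obtain ⟨⟨hsS, -, -, hre⟩, him⟩ := hs
            refine ⟨?_, (hS s hsS).1.1⟩
            have h12 : (s - I * t').re = s.re := by simp
            have h13 : (s - I * t').im = s.im - t' := by simp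
            have h14 := Complex.norm_le_abs_re_add_abs_im (s - I * t')
            rw [h12, h13] at h14
            have h15 : |s.im - t'| ≤ |s.im - s0.im| + |s0.im - t'| := abs_sub_le _ _ _
            linarith)
        exact h11)
    refine h10.trans (le_of_eq ?_)
    rw [hr i, pow_succ]
    field_simp
    ring
  have hbb : ∑ i ∈ Finset.range J, ∑ s ∈ S.filter (fun s => ¬ GJ2 F η T n i s.im ∧
      GJ2 F η T n (i + 1) s.im ∧ |s.re| ≤ 5 * ra T (2 ^ (i + 1) * n)), wt F n s ≤
      100 * C4 * C1 * Q * T * Real.exp (-(c1 * n)) * L := by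
    refine (Finset.sum_le_sum hbi).trans ?_
    rw [← Finset.mul_sum]
    calc 100 * C4 * C1 * T * L * ∑ i ∈ Finset.range J, Real.exp (-(c1 * (2 ^ i * n)))
        ≤ 100 * C4 * C1 * T * L * (Real.exp (-(c1 * n)) * Q) := by
          rw [hQ]
          exact mul_le_mul_of_nonneg_left (geo c1 hc1 n J hn1) (by positivity)
      _ = _ := by ring
  -- the far zeros
  have hbf : ∑ s ∈ S.filter (fun s => ¬ Top2 F (B + 2) (1 / 100) η s.im), wt F n s ≤
      6 * C5 * C3 * T * Real.exp (-(c3 * n)) * L := by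
    have h10 := cover (wt F n) (wt_nonneg F n) (fun s => s.im) (1 / 2) (6 * C5 * L)
      (by norm_num) (by positivity) (S.filter (fun s => ¬ Top2 F (B + 2) (1 / 100) η s.im))
      _ (C3 * T ^ (1 - c3)) (by positivity)
      (by
        intro s hs
        rw [Finset.mem_filter] at hs
        obtain ⟨hbad, hs1, hs2⟩ := hS s hs.1
        intro x hx
        refine ⟨by linarith [hx.1], by linarith [hx.2], fun hok => hs.2 ⟨x, ?_, hok⟩⟩
        rw [abs_le]
        constructor <;> linarith [hx.1, hx.2])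
      (hfar T hTT3)
      (by
        intro s0 hs0
        obtain ⟨hbad0, hs1, hs2⟩ := hS s0 ((Finset.filter_subset _ _) hs0)
        have h11 := window F zero_le_one hC5 hT5 hunit n (s0.im - 1) 2 (by linarith)
          (hloghalf _ (by linarith)) (by positivity)
          ((S.filter (fun s => ¬ Top2 F (B + 2) (1 / 100) η s.im)).filter
            (fun s' => |s'.im - s0.im| ≤ 2 * (1 / 2))) (by
            intro s hs
            rw [Finset.mem_filter] at hs
            obtain ⟨hbad, hs3, hs4⟩ := hS s ((Finset.filter_subset _ _) hs.1)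
            have h12 := abs_le.1 hs.2
            exact ⟨by linarith, by linarith, hbad.1⟩)
        refine h11.trans ?_
        have h12 : Real.log (s0.im - 1 + 2) ≤
            2 * L := (Real.log_le_log (by linarith) (by linarith)).trans hlog3
        calc ((2 : ℝ) + 1) * (C5 * Real.log (s0.im - 1 + 2))
            ≤ 3 * (C5 * (2 * L)) := by
              apply mul_le_mul (by norm_num) (mul_le_mul_of_nonneg_left h12 hC5.le) _ (by positivity)
              apply mul_nonneg hC5.le (Real.log_nonneg (by linarith))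
          _ = 6 * C5 * L := by ring)
    refine h10.trans ?_
    have hTc : T ^ (1 - c3) = T * Real.exp (-(c3 * L)) := by
      rw [Real.rpow_sub hT0, Real.rpow_one, Real.rpow_def_of_pos hT0, div_eq_mul_inv, ← Real.exp_neg, hL]
      congr 3
      ring
    rw [hTc]
    have h14 : Real.exp (-(c3 * L)) ≤ Real.exp (-(c3 * n)) := by
      apply Real.exp_le_exp.2
      have : c3 * n ≤ c3 * L := mul_le_mul_of_nonneg_left (by linarith) hc3.le
      linarith
    calc 6 * C5 * L * (C3 * (T * Real.exp (-(c3 * L)))) / (2 * (1 / 2))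
        = 6 * C5 * C3 * T * Real.exp (-(c3 * L)) * L := by ring
      _ ≤ 6 * C5 * C3 * T * Real.exp (-(c3 * n)) * L := by gcongr
  -- conclusion
  have he1 : Real.exp (-(c1 * n)) ≤ Real.exp (-(min c1 c3 * n)) := by
    apply Real.exp_le_exp.2
    have := mul_le_mul_of_nonneg_right (min_le_left c1 c3) (Nat.cast_nonneg (α := ℝ) n)
    linarith
  have he3 : Real.exp (-(c3 * n)) ≤ Real.exp (-(min c1 c3 * n)) := by
    apply Real.exp_le_exp.2
    have := mul_le_mul_of_nonneg_right (min_le_right c1 c3) (Nat.cast_nonneg (α := ℝ) n)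
    linarith
  have hfin : ∑ s ∈ S, wt F n s ≤ (80000 * C5 * C1 + 100 * C4 * C1 * Q + 6 * C5 * C3) * T *
      Real.exp (-(min c1 c3 * n)) * L := by
    calc ∑ s ∈ S, wt F n s ≤ _ := hsplit
      _ ≤ 80000 * C5 * C1 * T * Real.exp (-(c1 * n)) * L +
          6 * C5 * C3 * T * Real.exp (-(c3 * n)) * L +
          100 * C4 * C1 * Q * T * Real.exp (-(c1 * n)) * L := by
          exact add_le_add (add_le_add hbc hbf) hbb
      _ ≤ 80000 * C5 * C1 * T * Real.exp (-(min c1 c3 * n)) * L +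
          6 * C5 * C3 * T * Real.exp (-(min c1 c3 * n)) * L +
          100 * C4 * C1 * Q * T * Real.exp (-(min c1 c3 * n)) * L := by gcongr
      _ = _ := by ring
  exact hfin

end Pool.Agent.T6.H10.DS
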