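import Pool.Agent.T6.H10.DS.RegD

set_option autoImplicit false

/-!
# All zeros of the derivatives at good heights are regular
-/

namespace Pool.Agent.T6.H10.DS

open Complex Filter Topology MeasureTheory Set
open Pool.Agent.Y671.LD (bad FarOK Strip iter_comp coord iter_diff Loc DD PtA PtB ra_pos ra_eq)
open Pool.Agent.H24R2.JP (Om)
open Pool.Agent.H24R2.DZ (ra NN SB2)

/-- good at the scale `2^j n` near the height `t` -/
def GJ2 (F : ℂ → ℂ) (η T : ℝ) (n j : ℕ) (t : ℝ) : Prop :=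
  ∃ t' : ℝ, |t - t'| ≤ ra T (2 ^ j * n) / 200 ∧
    NN (2 ^ j * n) η (fun z => F (I * t' + ra T (2 ^ j * n) * z))

/-- good at the top near the height `t` -/
def Top2 (F : ℂ → ℂ) (R ε0 η t : ℝ) : Prop := ∃ t' : ℝ, |t - t'| ≤ 1 / 2 ∧ FarOK F R ε0 η t'

lemma FarOK_mono2 {F : ℂ → ℂ} {R R' ε ε' η η' t : ℝ} (h : FarOK F R ε η t) (hR : R' ≤ R)
    (hε : ε ≤ ε') (hη : η ≤ η') (hOm : 0 ≤ Om t) : FarOK F R' ε' η' t := by
  intro z h1 h2
  obtain ⟨h3, h4⟩ := h z (hε.trans h1) (h2.trans hR)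
  exact ⟨h3, h4.trans (mul_le_mul_of_nonneg_right hη hOm)⟩

lemma NN_mono2 {a η η' : ℝ} {F : ℂ → ℂ} (h : NN a η F) (hη : η ≤ η') (ha : 0 ≤ a) : NN a η' F :=
  Pool.Agent.Y671.LD.NN_mono h hη ha

/-- a zero which is not bad -/
lemma not_bad {F : ℂ → ℂ} {n : ℕ} {z : ℂ} (hz : iteratedDeriv n F z = 0) (h : ¬ bad F n z) :
    z.re = 0 ∧ iteratedDeriv (n + 1) F z ≠ 0 := by
  by_contra hcon
  apply h
  refine ⟨hz, ?_⟩
  by_cases h1 : z.re = 0
  · right
    by_contra h2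
    exact hcon ⟨h1, h2⟩
  · left; exact h1

/-- from the scale to the height -/
lemma gap_num {e T s g : ℝ} (he : 0 < e) (hT : 0 < T) (hωe : 4 / e ≤ Om T) (hω : 0 < Om T) (h1 : T ≤ s) (h2 : s ≤ 2 * T)
    (hg : 0 < g) (h : |g * Om T - Real.pi| ≤ e) (he1 : e ≤ 1 / 2) : |g * Om s - Real.pi| ≤ 2 * e := by
  have hpi2 := Real.pi_lt_d2
  norm_num at hpi2
  have hgω : g * Om T ≤ 4 := by
    have := (abs_le.1 h).2
    linarith
  have hOm1 : |Om s - Om T| ≤ 1 / 2 := by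
    unfold Om
    have h3 : Real.log T ≤ Real.log s := Real.log_le_log hT h1
    have h4 : Real.log s ≤ Real.log 2 + Real.log T := by
      rw [← Real.log_mul (by norm_num) hT.ne']
      exact Real.log_le_log (by linarith) h2
    have h5 := Real.log_two_lt_d9
    norm_num at h5
    rw [abs_le]
    constructor <;> linarith
  have hg4e : g * 4 ≤ 4 * e := by
    have h3 : g * (4 / e) ≤ g * Om T := mul_le_mul_of_nonneg_left hωe hg.le
    have h4 : g * (4 / e) ≤ 4 := h3.trans hgω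
    have h5 : g * (4 / e) * e = g * 4 := by field_simp
    have h6 := mul_le_mul_of_nonneg_right h4 he.le
    linarith
  have e2 : g * Om s - Real.pi = (g * Om T - Real.pi) + g * (Om s - Om T) := by ring
  rw [e2]
  refine (abs_add_le _ _).trans ?_
  rw [abs_mul, abs_of_pos hg]
  have h5 : g * |Om s - Om T| ≤ g * (1 / 2) := mul_le_mul_of_nonneg_left hOm1 hg.le
  linarith

theorem ptp {B K : ℝ} {F : ℂ → ℂ} (hD : DD B K F) (hst : Strip F B) (h8 : PtB F) (h2 : SB2) (ε : ℝ) (hε : 0 < ε) :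
    ∃ η T0 : ℝ, ∃ n0 : ℕ, 0 < η ∧ 2 ≤ T0 ∧ 1 ≤ n0 ∧ ∀ (T : ℝ) (n J : ℕ) (s : ℂ), T0 ≤ T → n0 ≤ n →
      (n : ℝ) ≤ Real.log T / 400 → Real.log T / 400 < (2 : ℝ) ^ J * n →
      T < s.im → s.im ≤ 2 * T → (∀ j : ℕ, j ≤ J → GJ2 F η T n j s.im) → Top2 F (B + 2) (1 / 100) η s.im →
      ¬ irrD F ε n s := by
  have hF := hD.diff
  obtain ⟨e, he⟩ : ∃ e : ℝ, e = min ε 1 / 2 := ⟨_, rfl⟩
  have he0 : 0 < e := by
    have := lt_min hε one_pos
    rw [he]; positivity
  have he1 : e ≤ 1 / 2 := by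
    have := min_le_right ε 1
    rw [he]; linarith
  have heε : 2 * e ≤ ε := by
    have := min_le_left ε 1
    rw [he]; linarith
  obtain ⟨ηA, nA, hηA, hnA, HA⟩ := gapd e he0 he1
  obtain ⟨ηB, nB, hηB, hnB, HB⟩ := h8
  obtain ⟨ηN, hηN, HN⟩ := no_far hF hD.symm hst h2
  refine ⟨min (min ηA ηB) ηN, max (Real.exp (8 / e)) (Real.exp 8), max (max nA nB) 800,
    lt_min (lt_min hηA hηB) hηN, ?_, ?_, ?_⟩
  · refine le_trans ?_ (le_max_right _ _)
    have := Real.add_one_le_exp (8 : ℝ)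
    linarith
  · exact le_max_of_le_right (by norm_num)
  intro T n J s hT hn hnL hJ hs1 hs2 hgood htop hirr
  have hTe : Real.exp (8 / e) ≤ T := (le_max_left _ _).trans hT
  have hT8 : Real.exp 8 ≤ T := (le_max_right _ _).trans hT
  have hnA' : nA ≤ n := (le_max_left _ _).trans ((le_max_left _ _).trans hn)
  have hnB' : nB ≤ n := (le_max_right _ _).trans ((le_max_left _ _).trans hn)
  have hn800 : 800 ≤ n := (le_max_right _ _).trans hn
  have hn800' : (800 : ℝ) ≤ n := by exact_mod_cast hn800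
  have hn1 : 1 ≤ n := by omega
  have hn0 : (0 : ℝ) < n := by linarith
  have hTpos : 0 < T := lt_of_lt_of_le (Real.exp_pos 8) hT8
  have hlog : 8 ≤ Real.log T := by
    rw [Real.le_log_iff_exp_le hTpos]; exact hT8
  have hlog8 : 8 / e ≤ Real.log T := by
    rw [Real.le_log_iff_exp_le hTpos]; exact hTe
  have hT5 : (5 : ℝ) ≤ T := by
    have := Real.add_one_le_exp (8 : ℝ)
    linarith
  obtain ⟨L, hL⟩ : ∃ L : ℝ, L = Real.log T := ⟨_, rfl⟩
  rw [← hL] at hlog hlog8 hnL hJ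
  have hL0 : 0 < L := by linarith
  have hω : Om T = L / 2 := by rw [hL]; rfl
  have hω4 : 4 / e ≤ Om T := by
    rw [hω]
    have : 8 / e = 2 * (4 / e) := by ring
    linarith
  have hω0 : 0 < Om T := by rw [hω]; linarith
  have hη1 : min (min ηA ηB) ηN ≤ ηA := (min_le_left _ _).trans (min_le_left _ _)
  have hη2 : min (min ηA ηB) ηN ≤ ηB := (min_le_left _ _).trans (min_le_right _ _)
  have hη3 : min (min ηA ηB) ηN ≤ ηN := min_le_right _ _
  obtain ⟨r, hr⟩ : ∃ r : ℝ, r = ra T n := ⟨_, rfl⟩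
  have hre : r = n / Om T := by rw [hr]; rfl
  have hr0 : 0 < r := by rw [hre]; positivity
  have hr1 : r ≤ 1 / 100 := by
    rw [hre, hω, div_le_iff₀ (by positivity)]
    linarith
  have hrj : ∀ j : ℕ, r ≤ ra T (2 ^ j * n) := by
    intro j
    rw [hr, ra_eq, ra_eq, ← hL]
    apply div_le_div_of_nonneg_right _ hL0.le
    have h6 : (1 : ℝ) ≤ 2 ^ j := one_le_pow₀ (by norm_num)
    nlinarith
  have hrJ : 1 / 200 < ra T (2 ^ J * n) := by
    rw [ra_eq, ← hL, lt_div_iff₀ hL0]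
    linarith
  have h4r : 4 * r / n ≤ r / 200 := by
    rw [div_le_div_iff₀ hn0 (by norm_num)]
    nlinarith
  obtain ⟨t0, ht0, hFar⟩ := htop
  have ht0' := abs_le.1 ht0
  have hlt0 : L - 1 ≤ Real.log t0 := by
    have h3 : Real.log (T / 2) ≤ Real.log t0 := Real.log_le_log (by positivity) (by linarith)
    rw [Real.log_div hTpos.ne' (by norm_num)] at h3
    have h5 := Real.log_two_lt_d9
    norm_num at h5
    rw [hL]
    linarith
  have hOmt0 : Om t0 = Real.log t0 / 2 := rfl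
  -- zeros near the height of `s`
  have hnear : ∀ z : ℂ, iteratedDeriv n F z = 0 → |z.im - s.im| ≤ r / 200 →
      z.re = 0 ∧ iteratedDeriv (n + 1) F z ≠ 0 := by
    intro z hz hzs
    apply not_bad hz
    intro hbad
    have hLoc : Loc F ηB T n 0 J z.im := by
      intro j _ hj
      obtain ⟨t', h3, h4⟩ := hgood j hj
      refine ⟨t', ?_, NN_mono2 h4 hη2 (by positivity)⟩
      have h5 := abs_sub_le z.im s.im t'
      have h6 := hrj j
      linarith
    have h3 := HB T n J z (by linarith) hnB' hbad hLoc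
    have h4 := HN t0 (1 / 100) n z hn1 (by norm_num) (by norm_num) (by rw [hOmt0]; linarith) (by
      rw [hOmt0]; linarith) (FarOK_mono2 hFar le_rfl le_rfl hη3 (by rw [hOmt0]; linarith)) hz (by
      have h5 := abs_sub_le z.im s.im t0
      linarith)
    linarith
  obtain ⟨t', ht', hNN⟩ := hgood 0 (Nat.zero_le _)
  simp only [pow_zero, one_mul] at ht' hNN
  rw [← hr] at ht' hNN
  have hG := HA n _ hnA' (NN_mono2 hNN hη1 (by positivity))
  obtain ⟨hs0, hnreg⟩ := hirr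
  obtain ⟨q1, q2, g, hg0, hg4, q3, q4, q5, q6⟩ := reg_localD hF hr0 hn1 he1 hG hs0 (by linarith)
    (fun z hz hz1 hz2 => hnear z hz (by rw [abs_of_nonneg (by linarith)]; linarith))
  apply hnreg
  refine ⟨q1, q2, g, hg0, ?_, q4, q5, q6⟩
  have e1 : n * (g / r) = g * Om T := by
    rw [hre]
    field_simp
  rw [e1] at q3
  exact (gap_num he0 hTpos hω4 hω0 hs1.le hs2 hg0 q3 he1).trans heε

end Pool.Agent.T6.H10.DS
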