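import Pool.Agent.Y671.LD.Mid
import Pool.Agent.W368.SD.SB3
import Pool.Agent.T6.H10.DS.GapD

set_option autoImplicit false

/-!
# Regular zeros of the derivatives
-/

namespace Pool.Agent.T6.H10.DS

open Complex Filter Topology MeasureTheory Set
open Pool.Agent.Y671.LD (bad FarOK Strip iter_comp coord iter_diff)
open Pool.Agent.H24R2.JP (Om)
open Pool.Agent.H24R2.DZ (ra NN SB2)

/-- `s` is a simple zero of `F^(n)` on the line, and the next zero is again a simple zero on the line, at the distance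
`(π + O(ε)) / Om (Im s)`. -/
def regD (F : ℂ → ℂ) (ε : ℝ) (n : ℕ) (s : ℂ) : Prop :=
  s.re = 0 ∧ iteratedDeriv (n + 1) F s ≠ 0 ∧ ∃ g : ℝ, 0 < g ∧ |g * Om s.im - Real.pi| ≤ ε ∧
    iteratedDeriv n F (s + g * I) = 0 ∧ iteratedDeriv (n + 1) F (s + g * I) ≠ 0 ∧
    ∀ z : ℂ, iteratedDeriv n F z = 0 → s.im ≤ z.im → z.im ≤ s.im + g → z = s ∨ z = s + g * I

/-- A zero of `F^(n)` which is not regular. -/
def irrD (F : ℂ → ℂ) (ε : ℝ) (n : ℕ) (s : ℂ) : Prop := iteratedDeriv n F s = 0 ∧ ¬ regD F ε n s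

lemma reg_localD {F : ℂ → ℂ} (hF : Differentiable ℂ F) {ε r t' : ℝ} {n : ℕ} {s : ℂ} (hr : 0 < r) (hn : 1 ≤ n)
    (hε : ε ≤ 1 / 2)
    (hGAP : ∀ y : ℝ, |y| ≤ 1 / 100 → iteratedDeriv n (fun z => F (I * t' + r * z)) (y * I) = 0 →
      ∃ h : ℝ, 0 < h ∧ |n * h - Real.pi| ≤ ε ∧
        iteratedDeriv n (fun z => F (I * t' + r * z)) ((y + h : ℝ) * I) = 0 ∧
        ∀ h' : ℝ, 0 < h' → h' < h → iteratedDeriv n (fun z => F (I * t' + r * z)) ((y + h' : ℝ) * I) ≠ 0)
    (hs : iteratedDeriv n F s = 0) (hst : |s.im - t'| ≤ r / 100)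
    (hnb : ∀ z : ℂ, iteratedDeriv n F z = 0 → s.im ≤ z.im → z.im ≤ s.im + 4 * r / n →
      z.re = 0 ∧ iteratedDeriv (n + 1) F z ≠ 0) :
    s.re = 0 ∧ iteratedDeriv (n + 1) F s ≠ 0 ∧ ∃ g : ℝ, 0 < g ∧ g ≤ 4 * r / n ∧ |n * (g / r) - Real.pi| ≤ ε ∧
    iteratedDeriv n F (s + g * I) = 0 ∧ iteratedDeriv (n + 1) F (s + g * I) ≠ 0 ∧
    ∀ z : ℂ, iteratedDeriv n F z = 0 → s.im ≤ z.im → z.im ≤ s.im + g → z = s ∨ z = s + g * I := by
  have hn0 : (0 : ℝ) < n := by exact_mod_cast hn
  have hra : 0 < 4 * r / n := by positivity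
  have hs0 := hnb s hs le_rfl (by linarith)
  have hrc : (r : ℂ) ≠ 0 := by exact_mod_cast hr.ne'
  -- zeros on the axis in local coordinates
  have hloc : ∀ u : ℝ, iteratedDeriv n F ((u : ℂ) * I) = 0 ↔
      iteratedDeriv n (fun z => F (I * t' + r * z)) (((u - t') / r : ℝ) * I) = 0 := by
    intro u
    have e1 : I * (t' : ℂ) + (r : ℂ) * ((((u - t') / r : ℝ) : ℂ) * I) = (u : ℂ) * I := by
      push_cast
      field_simp
      ring
    rw [iter_comp hF, e1, mul_eq_zero, or_iff_right (pow_ne_zero _ hrc)]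
  have hax : ∀ z : ℂ, z.re = 0 → z = (z.im : ℂ) * I := by
    intro z hz
    apply Complex.ext
    · simp [hz]
    · simp
  have hsI := hax s hs0.1
  obtain ⟨y, hy⟩ : ∃ y : ℝ, y = (s.im - t') / r := ⟨_, rfl⟩
  have hys : iteratedDeriv n (fun z => F (I * t' + r * z)) (y * I) = 0 := by
    rw [hy, ← hloc, ← hsI]
    exact hs
  have hy1 : |y| ≤ 1 / 100 := by
    rw [hy, abs_div, abs_of_pos hr, div_le_iff₀ hr]
    linarith
  obtain ⟨h, h0, h1, h2, h3⟩ := hGAP y hy1 hys
  obtain ⟨g, hgd⟩ : ∃ g : ℝ, g = r * h := ⟨_, rfl⟩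
  have hg0 : 0 < g := by rw [hgd]; positivity
  have hgr : g / r = h := by rw [hgd]; field_simp
  have hah : n * h ≤ 4 := by
    have := (abs_le.1 h1).2
    have hpi2 := Real.pi_lt_d2
    norm_num at hpi2
    linarith
  have hg4 : g ≤ 4 * r / n := by
    rw [le_div_iff₀ hn0, hgd]
    have := mul_le_mul_of_nonneg_left hah hr.le
    linarith
  have hsg : s + g * I = ((s.im + g : ℝ) : ℂ) * I := by
    conv_lhs => rw [hsI]
    push_cast
    ring
  have hyg : (s.im + g - t') / r = y + h := by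
    rw [hy, hgd]
    field_simp
    ring
  have hzg : iteratedDeriv n F (s + g * I) = 0 := by
    rw [hsg, hloc, hyg]
    exact h2
  have hsgim : (s + g * I).im = s.im + g := by simp
  refine ⟨hs0.1, hs0.2, g, hg0, hg4, by rw [hgr]; exact h1, hzg, ?_, ?_⟩
  · exact (hnb _ hzg (by rw [hsgim]; linarith) (by rw [hsgim]; linarith)).2
  · intro z hz hz1 hz2
    have hzr := (hnb z hz hz1 (by linarith)).1
    have hzI := hax z hzr
    rcases hz1.eq_or_lt with h4 | h4
    · left
      rw [hzI, hsI, h4]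
    · rcases hz2.eq_or_lt with h5 | h5
      · right
        rw [hsg, ← h5]
        exact hzI
      · exfalso
        have h6 : iteratedDeriv n (fun z => F (I * t' + r * z)) (((z.im - t') / r : ℝ) * I) = 0 := by
          rw [← hloc, ← hzI]
          exact hz
        obtain ⟨h', hh'⟩ : ∃ h' : ℝ, h' = (z.im - s.im) / r := ⟨_, rfl⟩
        have e1 : (z.im - t') / r = y + h' := by
          rw [hy, hh']
          field_simp
          ring
        rw [e1] at h6
        refine h3 h' ?_ ?_ h6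
        · rw [hh']
          exact div_pos (by linarith) hr
        · rw [hh', div_lt_iff₀ hr]
          rw [hgd] at h5
          linarith

/-- No zeros of the derivatives at a moderate distance from the line, if the logarithmic derivative is as expected
there. -/
lemma no_far {F : ℂ → ℂ} (hF : Differentiable ℂ F)
    (hsy : ∀ z : ℂ, F (-((starRingEnd ℂ) z)) = (starRingEnd ℂ) (F z)) {B : ℝ} (hst : Strip F B)
    (h2 : SB2) : ∃ η : ℝ, 0 < η ∧ ∀ (t' ε0 : ℝ) (n : ℕ) (s : ℂ), 1 ≤ n → 0 < ε0 → ε0 ≤ 1 / 2 → 0 < Om t' →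
      3 / 2 * n ≤ ε0 * Om t' → FarOK F (B + 2) ε0 η t' → iteratedDeriv n F s = 0 → |s.im - t'| ≤ 1 →
      |s.re| < 2 * ε0 := by
  obtain ⟨η, hη, H⟩ := h2
  refine ⟨η, hη, ?_⟩
  intro t' ε0 n s hn hε hε1 hOm hnε hFar hs hst'
  -- it suffices to treat the right half plane
  have key : ∀ s : ℂ, iteratedDeriv n F s = 0 → |s.im - t'| ≤ 1 → 2 * ε0 ≤ s.re → False := by
    intro s hs hst' hre
    have hn0 : (1 : ℝ) ≤ n := by exact_mod_cast hn
    have hn1 : (0 : ℝ) < n := by linarith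
    obtain ⟨r, hr⟩ : ∃ r : ℝ, r = n / Om t' := ⟨_, rfl⟩
    have hr0 : 0 < r := by rw [hr]; positivity
    have hrO : r * Om t' = n := by rw [hr]; field_simp
    have hrε : 3 / 2 * r ≤ ε0 := by
      rw [hr, ← mul_div_assoc, div_le_iff₀ hOm]
      exact hnε
    have hrc : (r : ℂ) ≠ 0 := by exact_mod_cast hr0.ne'
    have hsB := hst n s hs
    obtain ⟨p, hp⟩ : ∃ p : ℂ, p = s / r := ⟨_, rfl⟩
    have hrp : (r : ℂ) * p = s := by rw [hp]; field_simp
    have hball : ∀ w ∈ Metric.ball p (3 / 2), ε0 ≤ ((r : ℂ) * w - I * t').re ∧ ‖(r : ℂ) * w - I * t'‖ ≤ B + 2 := by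
      intro w hw
      rw [Metric.mem_ball, dist_eq_norm] at hw
      have h1 : ‖(r : ℂ) * w - s‖ ≤ ε0 := by
        rw [← hrp, ← mul_sub, norm_mul, Complex.norm_real, Real.norm_eq_abs, abs_of_pos hr0]
        have := mul_le_mul_of_nonneg_left hw.le hr0.le
        linarith
      have e1 : (r : ℂ) * w - I * t' = (s - I * t') + ((r : ℂ) * w - s) := by ring
      have e2 : (s - I * t').re = s.re := by simp
      have e3 : (s - I * t').im = s.im - t' := by simp
      constructor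
      · rw [e1, Complex.add_re, e2]
        have h3 := (abs_le.1 ((Complex.abs_re_le_norm ((r : ℂ) * w - s)).trans h1)).1
        linarith
      · rw [e1]
        refine (norm_add_le _ _).trans ?_
        have h3 := Complex.norm_le_abs_re_add_abs_im (s - I * t')
        rw [e2, e3] at h3
        linarith
    have hfar : ∀ w ∈ Metric.ball p (3 / 2), F ((r : ℂ) * w) ≠ 0 ∧
        ‖logDeriv F ((r : ℂ) * w) - (Om t' : ℂ)‖ ≤ η * Om t' := by
      intro w hw
      obtain ⟨h1, h3⟩ := hball w hw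
      have h4 := hFar ((r : ℂ) * w - I * t') h1 h3
      rwa [show I * (t' : ℂ) + ((r : ℂ) * w - I * t') = (r : ℂ) * w by ring] at h4
    have hd : ∀ w : ℂ, DifferentiableAt ℂ (fun w => F (r * w)) w := fun w =>
      (hF.comp (by fun_prop : Differentiable ℂ (fun w : ℂ => (r : ℂ) * w))) w
    have hlog : ∀ w : ℂ, logDeriv (fun w => F (r * w)) w = r * logDeriv F (r * w) := by
      intro w
      have h3 : HasDerivAt (fun w : ℂ => (r : ℂ) * w) r w := by
        simpa using (hasDerivAt_id w).const_mul (r : ℂ)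
      have h4 := ((hF ((r : ℂ) * w)).hasDerivAt.comp w h3).deriv
      have h5 : deriv (fun w => F (r * w)) w = deriv F (r * w) * r := h4
      rw [logDeriv_apply, logDeriv_apply, h5]
      ring
    have h3 := H n p (fun w => F (r * w)) hn (fun w hw => by
      obtain ⟨h4, h5⟩ := hfar w hw
      refine ⟨hd w, h4, ?_⟩
      rw [hlog]
      have e1 : (r : ℂ) * logDeriv F (r * w) - (n : ℂ) = r * (logDeriv F (r * w) - (Om t' : ℂ)) := by
        have : (n : ℂ) = r * (Om t' : ℂ) := by exact_mod_cast hrO.symm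
        rw [this]
        ring
      rw [e1, norm_mul, Complex.norm_real, Real.norm_eq_abs, abs_of_pos hr0]
      calc r * ‖logDeriv F (r * w) - (Om t' : ℂ)‖ ≤ r * (η * Om t') := mul_le_mul_of_nonneg_left h5 hr0.le
        _ = η * n := by rw [← hrO]; ring)
    have h4 : iteratedDeriv n (fun w => F (r * w)) p = 0 := by
      have h5 := iter_comp hF n 0 (r : ℂ) p
      simp only [zero_add] at h5
      rw [h5, hrp, hs, mul_zero]
    rw [h4, norm_zero, mul_zero] at h3
    have h5 : F (r * p) ≠ 0 := (hfar p (Metric.mem_ball_self (by norm_num))).1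
    have h6 : 0 < (n.factorial : ℝ) * ‖F (r * p)‖ :=
      mul_pos (by exact_mod_cast n.factorial_pos) (norm_pos_iff.2 h5)
    linarith
  by_contra hcon
  push Not at hcon
  rcases le_abs.1 hcon with h | h
  · exact key s hs hst' h
  · refine key (-((starRingEnd ℂ) s)) ?_ (by simpa using hst') (by simpa using h)
    have h1 := Pool.Agent.W368.SD.iter_refl hF hsy n s
    rw [hs] at h1
    have h2 := (mul_eq_zero.1 h1.symm).resolve_left (pow_ne_zero _ (by norm_num))
    exact (map_eq_zero _).1 h2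

end Pool.Agent.T6.H10.DS
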